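import Pool.Agent.Lib.MP_a7239a_co.RK.Defs
import Pool.Agent.Lib.MP_a7239a_co.GC.R2B

/-!
# The structure part of Theorem R*: definitions
-/

open Finset

namespace Pool.Agent.Lib.MPa7239a.RS

open Pool.Agent.Lib.MPa7239a.GC

/-- the differences of `S` -/
def Df {G : Type*} [AddCommGroup G] [DecidableEq G] (S : Finset G) : Finset G :=
  (S ×ˢ S).image (fun p => p.2 - p.1)

/-- the character `ξ` with values in `ZMod n` -/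
def ph {n : ℕ} (ξ v : ZMod n × ZMod n) : ZMod n := ξ.1 * v.1 + ξ.2 * v.2

/-- the parameters; `λ = 288 M ℓ ^ 2` -/
structure Par (m n ℓ M Λ k : ℕ) : Prop where
  hℓ : n < 2 ^ ℓ
  hb : (3 * ℓ + 1) * n ^ 2 < 2 ^ (3 * ℓ)
  hM : 1 ≤ M
  hmn : m ≤ n
  hΛ : 3 * m ≤ Λ * M
  hk₁ : (k + 1) * Λ < M
  hk₂ : 26 * m ≤ (k + 1) ^ 2
  hΛ₂ : 28 * Λ ^ 2 ≤ M
  hM₂ : 2592 * 400000 * M * ℓ ^ 3 ≤ m

/-- the structure for a minimal subgroup `K` of index `j` in `Γ`: `S ⊆ A ∩ (q + K)` is lifted to the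
integers modulo `H`, `K / H` is cyclic of order `o`, generated by `e`; `low`: minimality -/
structure Amj {G : Type*} [AddCommGroup G] (Γ K H : AddSubgroup G) (e q : G) (A S : Finset G)
    (z : G → ℤ) (m n c j o τ loss k t' Z : ℕ) (u v : ℤ) : Prop where
  card : #A = n + c
  inΓ : ∀ x ∈ A, x ∈ Γ
  cardΓ : Nat.card Γ = m * n
  HK : H ≤ K
  KΓ : K ≤ Γ
  cardK : Nat.card K * j = m * n
  cardH : Nat.card H * o = Nat.card K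
  order : addOrderOf (e : G ⧸ H) = o
  on : o ∣ n
  eK : e ∈ K
  gen : ∀ x ∈ K, ∃ a : ℤ, x - a • e ∈ H
  qS : q ∈ S
  sub : S ⊆ A
  lift : ∀ x ∈ S, x - q - z x • e ∈ H
  bound : ∀ x ∈ S, |z x| ≤ Z
  small : 1000 * Z ≤ o
  hloss : n + τ ≤ #S + loss
  inK : ∀ B ⊆ A, (∀ x ∈ B, x - q ∈ K) → #B ≤ #S + loss
  cardS : #S = k + t'
  kn : k ≤ n
  nk : n ≤ k + loss
  tk : t' ≤ k
  uv : u ≤ v
  hu : t' ≤ #(S.filter (fun x => z x ≤ u))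
  hv : t' ≤ #(S.filter (fun x => v ≤ z x))
  win : t' * (v - u) + ∑ x ∈ S.filter (fun x => v < z x), (z x - v) +
    ∑ x ∈ S.filter (fun x => z x < u), (u - z x) + 2 ≤ o
  row : ∀ x₀ : G, ∀ B ⊆ A, (∀ x ∈ B, x - x₀ ∈ H) → #B < n + loss
  low : ∀ K' : AddSubgroup G, K' ≤ Γ → Nat.card K' < Nat.card K → ∀ x₀ : G, ∀ B ⊆ A,
    (∀ x ∈ B, x - x₀ ∈ K') → #B < n + τ

end Pool.Agent.Lib.MPa7239a.RS
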