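import Pool.Agent.Lib.MP_a7239a_co.RS.Defs
import Pool.Agent.Lib.MP_a7239a_co.RK.TWO
import Pool.Agent.Lib.MP_a7239a_co.RK.CNT

/-!
# The index of the minimal subgroup is one
-/

open Finset

namespace Pool.Agent.Lib.MPa7239a.RS

open Pool.Agent.Lib.MPa7239a.GC

namespace J2M

/-! ### Numbers -/

/-- `t'` is nearly `m` -/
theorem num_t {n k t' m τ loss : ℤ} (h3 : k ≤ n) (h4 : n + τ ≤ k + t' + loss)
    (h9 : 100 * m ≤ 101 * τ) (h10 : 1000 * loss ≤ m) (h11 : 1000 ≤ m) :
    989 * m ≤ 1000 * t' := by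
  linarith

/-- at least three rows -/
theorem num_ge_two {n o s k t' D P I h m τ loss : ℤ} (h1 : n = o * s)
    (h3 : k ≤ n) (h4 : n + τ ≤ k + t' + loss) (h5 : t' * D + P + 2 ≤ o) (h6 : k + t' ≤ I + P)
    (h7 : I ≤ (D + 1) * h) (h8 : 2 * h ≤ m * s) (h9 : 100 * m ≤ 101 * τ)
    (h10 : 1000 * loss ≤ m) (h11 : 1000 ≤ m) (hP : 0 ≤ P) (hD : 2 ≤ D) (hs : 1 ≤ s) :
    False := by
  have ht := num_t h3 h4 h9 h10 h11
  have a1 : (D + 1) * (2 * h) ≤ (D + 1) * (m * s) := mul_le_mul_of_nonneg_left h8 (by linarith)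
  have a2 : (t' * D + 2) * (s - 1) ≤ o * (s - 1) :=
    mul_le_mul_of_nonneg_right (by linarith) (by linarith)
  have hDs : 0 ≤ D * s := mul_nonneg (by linarith) (by linarith)
  have a3 : 989 * m * (D * s) ≤ 1000 * t' * (D * s) := mul_le_mul_of_nonneg_right ht hDs
  have hms : 0 ≤ m * s := mul_nonneg (by linarith) (by linarith)
  have a4 : m * s * 2 ≤ m * s * D := mul_le_mul_of_nonneg_left hD hms
  have hms1 : m * 1 ≤ m * s := mul_le_mul_of_nonneg_left hs (by linarith)
  nlinarith

/-- one row -/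
theorem num_zero {n o s k t' P I h m τ loss : ℤ} (h1 : n = o * s)
    (h3 : k ≤ n) (h4 : n + τ ≤ k + t' + loss) (h5 : P + 2 ≤ o) (h6 : k + t' ≤ I + P)
    (h7 : I ≤ h) (h8 : 2 * h ≤ m * s) (h9 : 100 * m ≤ 101 * τ)
    (h10 : 1000 * loss ≤ m) (h11 : 1000 ≤ m) (hs : 1 ≤ s) :
    n + loss ≤ I := by
  have ht := num_t h3 h4 h9 h10 h11
  have ho : 2 * o ≤ m := by
    by_contra hlt
    push Not at hlt
    have a1 : m * (s - 1) ≤ 2 * o * (s - 1) :=
      mul_le_mul_of_nonneg_right hlt.le (by linarith)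
    nlinarith
  linarith

/-- two rows, index at least three -/
theorem num_three {n o s k t' P I h m τ loss : ℤ} (h1 : n = o * s)
    (h3 : k ≤ n) (h4 : n + τ ≤ k + t' + loss) (h5 : t' + P + 2 ≤ o) (h6 : k + t' ≤ I + P)
    (h7 : I ≤ 2 * h) (h8 : 3 * h ≤ m * s) (h9 : 100 * m ≤ 101 * τ)
    (h10 : 1000 * loss ≤ m) (h11 : 1000 ≤ m) (hP : 0 ≤ P) (hs : 1 ≤ s) : False := by
  have ht := num_t h3 h4 h9 h10 h11
  have a2 : (t' + 2) * (s - 1) ≤ o * (s - 1) :=
    mul_le_mul_of_nonneg_right (by linarith) (by linarith)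
  have a3 : 989 * m * s ≤ 1000 * t' * s := mul_le_mul_of_nonneg_right ht (by linarith)
  have hms1 : m * 1 ≤ m * s := mul_le_mul_of_nonneg_left hs (by linarith)
  nlinarith

/-- two rows, index two -/
theorem num_two {n o s k t' P I h m τ loss : ℤ} (h1 : n = o * s) (h2 : n ≤ k + loss)
    (h3 : k ≤ n) (h4 : n + τ ≤ k + t' + loss) (h5 : t' + P + 2 ≤ o) (h6 : k + t' ≤ I + P)
    (h7 : I ≤ 2 * h) (h8 : 2 * h = m * s) (h9 : 100 * m ≤ 101 * τ)
    (h10 : 1000 * loss ≤ m) (h11 : 1000 ≤ m) (hP : 0 ≤ P) (hs : 1 ≤ s) :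
    o + 1 ≤ m ∧ 3 * m ≤ n ∧ h + (o + 2 + loss) ≤ I ∧ o + 2 + loss ≤ h := by
  have ht := num_t h3 h4 h9 h10 h11
  have a0 : I + o ≥ o * s + 2 * t' + 2 - loss := by linarith
  have a1 : o + 1 ≤ m := by
    by_contra hlt
    push Not at hlt
    have a2 : m * (s - 1) ≤ o * (s - 1) := mul_le_mul_of_nonneg_right (by linarith) (by linarith)
    nlinarith
  have a2 : (t' + 2) * (s - 1) ≤ o * (s - 1) :=
    mul_le_mul_of_nonneg_right (by linarith) (by linarith)
  have a3 : 989 * m * (s - 1) ≤ 1000 * t' * (s - 1) :=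
    mul_le_mul_of_nonneg_right ht (by linarith)
  have hs89 : 89 ≤ s := by
    by_contra hlt
    push Not at hlt
    have hs88 : s ≤ 88 := by linarith
    have a4 : m * s ≤ m * 88 := mul_le_mul_of_nonneg_left hs88 (by linarith)
    nlinarith
  have a5 : m * 89 ≤ m * s := mul_le_mul_of_nonneg_left hs89 (by linarith)
  refine ⟨a1, ?_, ?_, ?_⟩
  · nlinarith
  · nlinarith
  · nlinarith

/-! ### Counting -/

variable {G : Type*} [AddCommGroup G]

omit [AddCommGroup G] in
theorem card_le (S : Finset G) (z : G → ℤ) {u v : ℤ} (huv : u ≤ v) :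
    (#S : ℤ) ≤ ∑ i ∈ Icc u v, (#(RK.row S z i) : ℤ) +
      (∑ x ∈ S.filter (fun x => v < z x), (z x - v) +
        ∑ x ∈ S.filter (fun x => z x < u), (u - z x)) := by
  have h1 := RK.card_rows S z (p := u) (q := v) (by omega)
  have h2 : (#(RK.low S z u) : ℤ) ≤ ∑ x ∈ S.filter (fun x => z x < u), (u - z x) := by
    unfold RK.low
    rw [card_eq_sum_ones]
    push_cast
    refine sum_le_sum fun x hx => ?_
    rw [mem_filter] at hx
    omega
  have h3 : (#(RK.high S z v) : ℤ) ≤ ∑ x ∈ S.filter (fun x => v < z x), (z x - v) := by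
    unfold RK.high
    rw [card_eq_sum_ones]
    push_cast
    refine sum_le_sum fun x hx => ?_
    rw [mem_filter] at hx
    omega
  have h4 : (#S : ℤ) = #(RK.low S z u) + ∑ i ∈ Icc u v, (#(RK.row S z i) : ℤ) +
      #(RK.high S z v) := by
    rw [h1]
    push_cast
    ring
  linarith

omit [AddCommGroup G] in
theorem dist_nonneg (S : Finset G) (z : G → ℤ) (u v : ℤ) :
    0 ≤ ∑ x ∈ S.filter (fun x => v < z x), (z x - v) +
        ∑ x ∈ S.filter (fun x => z x < u), (u - z x) := by
  refine add_nonneg (sum_nonneg fun x hx => ?_) (sum_nonneg fun x hx => ?_)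
  · rw [mem_filter] at hx
    omega
  · rw [mem_filter] at hx
    omega

/-- index two: sums of two elements outside -/
theorem add_mem_of_two [Finite G] {K Γ : AddSubgroup G} (hKΓ : K ≤ Γ)
    (hc : Nat.card K * 2 = Nat.card Γ) {x y : G} (hx : x ∈ Γ) (hy : y ∈ Γ) :
    x + y ∈ K ↔ (x ∈ K ↔ y ∈ K) := by
  have h1 : Nat.card K * K.relIndex Γ = Nat.card Γ := by
    have a1 := AddSubgroup.relIndex_mul_index hKΓ
    have a2 := AddSubgroup.card_mul_index K
    have a3 := AddSubgroup.card_mul_index Γ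
    rw [← a3, ← a1, ← mul_assoc] at a2
    exact Nat.eq_of_mul_eq_mul_right
      (Nat.pos_of_ne_zero AddSubgroup.index_ne_zero_of_finite) a2
  have h2 : K.relIndex Γ = 2 := by
    rw [← hc] at h1
    exact Nat.eq_of_mul_eq_mul_left Nat.card_pos h1
  have h3 : (K.addSubgroupOf Γ).index = 2 := h2
  have h4 := AddSubgroup.add_mem_iff_of_index_two h3 (a := ⟨x, hx⟩) (b := ⟨y, hy⟩)
  rw [AddSubgroup.mem_addSubgroupOf, AddSubgroup.mem_addSubgroupOf,
    AddSubgroup.mem_addSubgroupOf] at h4
  exact h4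

/-- the sum of an even number of elements outside -/
theorem sum_mem_iff [Finite G] [DecidableEq G] {K Γ : AddSubgroup G} (hKΓ : K ≤ Γ)
    (hc : Nat.card K * 2 = Nat.card Γ) {q : G} (B : Finset G) (hΓ : ∀ x ∈ B, x - q ∈ Γ)
    (hK : ∀ x ∈ B, x - q ∉ K) : (∑ x ∈ B, (x - q) ∈ K ↔ Even #B) := by
  induction B using Finset.induction_on with
  | empty => simp [K.zero_mem]
  | insert a B ha ih =>
    have ih' := ih (fun x hx => hΓ x (mem_insert_of_mem hx))
      (fun x hx => hK x (mem_insert_of_mem hx))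
    rw [sum_insert ha, card_insert_of_notMem ha, Nat.even_add_one,
      add_mem_of_two hKΓ hc (hΓ a (mem_insert_self a B))
        (Γ.sum_mem fun x hx => hΓ x (mem_insert_of_mem hx)), ih']
    have h1 := hK a (mem_insert_self a B)
    constructor
    · intro h2 h3
      exact h1 (h2.2 h3)
    · intro h2
      exact ⟨fun h3 => absurd h3 h1, fun h3 => absurd h3 h2⟩

/-- the choice of the number of elements outside `q + K` -/
theorem exists_beta {c₀ b o loss : ℕ} (h1 : c₀ ≤ o + loss) (h2 : o + 2 ≤ c₀ + b) :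
    ∃ β ≤ b, Even β ∧ o + 1 ≤ c₀ + β ∧ c₀ + β ≤ o + 2 + loss := by
  rcases Nat.lt_or_ge o c₀ with h | h
  · exact ⟨0, by omega, Even.zero, by omega, by omega⟩
  · rcases Nat.even_or_odd (o + 1 - c₀) with h3 | h3
    · exact ⟨o + 1 - c₀, by omega, h3, by omega, by omega⟩
    · refine ⟨o + 2 - c₀, by omega, ?_, by omega, by omega⟩
      have h4 : o + 2 - c₀ = (o + 1 - c₀) + 1 := by omega
      rw [h4]
      exact h3.add_one

/-- the pigeonhole: two partial rows with difference `e`, at least `o + 1` omitted elements -/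
theorem hit_two_rows [Finite G] [DecidableEq G] {H K : AddSubgroup G} {e q : G} {A W X Y : Finset G}
    {n o c : ℕ} {u : ℤ} (hWA : W ⊆ A) (hW : #W = n + c) (hXW : X ⊆ W) (hYW : Y ⊆ W)
    (hXY : Disjoint X Y) (hsum : ∑ x ∈ W, x - c • q ∈ K)
    (hgen : ∀ x ∈ K, ∃ a : ℤ, x - a • e ∈ H) (hoe : o • e ∈ H) (ho : 0 < o) (hoc : o + 1 ≤ c)
    (hX : ∀ x ∈ X, x - (q + (u + 1) • e) ∈ H) (hY : ∀ x ∈ Y, x - (q + u • e) ∈ H)
    (hcX : c ≤ #X) (hcY : c ≤ #Y) (hbig : Nat.card H + c ≤ #X + #Y) : Hit A n 0 := by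
  obtain ⟨a, ha⟩ := hgen _ hsum
  -- the number of omitted elements of `X`
  set r : ℤ := (a - c * u - 1) % o with hr
  have ho' : (0 : ℤ) < o := by exact_mod_cast ho
  have hr0 : 0 ≤ r := Int.emod_nonneg _ ho'.ne'
  have hr1 : r < o := Int.emod_lt_of_pos _ ho'
  obtain ⟨μ, hμ⟩ : ∃ μ : ℕ, (μ : ℤ) = r + 1 := ⟨(r + 1).toNat, by omega⟩
  have hμ1 : 1 ≤ μ := by omega
  have hμ2 : μ ≤ o := by omega
  have hμc : μ + 1 ≤ c := by omega
  obtain ⟨QX, hQX, hQXc⟩ := RK.exists_sums X hμ1 (show μ < #X by omega)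
  obtain ⟨QY, hQY, hQYc⟩ := RK.exists_sums Y (show 1 ≤ c - μ by omega) (show c - μ < #Y by omega)
  have hcos : ∀ (Z : Finset G) (g : G) (l : ℕ) (y : G), (∀ x ∈ Z, x - g ∈ H) → Hit Z l y →
      y - l • g ∈ H := by
    rintro Z g l y hZ ⟨T, hT, hTc, hTs⟩
    have h1 := RK.sum_mem_coset (K := H) (fun x hx => hZ x (hT hx))
    rwa [hTs, hTc] at h1
  have hw : ∑ x ∈ W, x - μ • (q + (u + 1) • e) - (c - μ) • (q + u • e) ∈ H := by
    have h1 : (o : ℤ) ∣ a - c * u - 1 - r := by
      rw [hr]
      exact Int.dvd_self_sub_emod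
    obtain ⟨b, hb⟩ := h1
    have h2 : b • (o • e) ∈ H := H.zsmul_mem hoe b
    have h3 := H.add_mem ha h2
    have h4 : ∑ x ∈ W, x - μ • (q + (u + 1) • e) - (c - μ) • (q + u • e) =
        ∑ x ∈ W, x - c • q - a • e + b • (o • e) := by
      have h5 : (c - μ) • (q + u • e) = c • (q + u • e) - μ • (q + u • e) := by
        rw [eq_sub_iff_add_eq, ← add_nsmul, Nat.sub_add_cancel (by omega)]
      have h6 : b • (o • e) = (a - c * u - μ) • e := by
        have h7 : a - c * u - μ = b * o := by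
          rw [mul_comm b, ← hb]
          omega
        rw [h7, mul_smul, natCast_zsmul]
      rw [h5, h6]
      simp only [smul_add, sub_smul, add_smul, mul_smul, natCast_zsmul, one_smul]
      abel
    rw [h4]
    exact h3
  obtain ⟨x', hx', y', hy', hxy⟩ := RK.exists_add (S := QX) (T := QY)
    (fun y hy => hcos X _ μ y hX (hQX y hy)) (fun y hy => hcos Y _ (c - μ) y hY (hQY y hy)) hw
    (by omega)
  obtain ⟨UX, hUX, hUXc, hUXs⟩ := hQX x' hx'
  obtain ⟨UY, hUY, hUYc, hUYs⟩ := hQY y' hy'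
  have hdis : Disjoint UX UY := Disjoint.mono hUX hUY hXY
  have hsub : UX ∪ UY ⊆ W := union_subset (hUX.trans hXW) (hUY.trans hYW)
  refine ⟨W \ (UX ∪ UY), sdiff_subset.trans hWA, ?_, ?_⟩
  · rw [card_sdiff_of_subset hsub, card_union_of_disjoint hdis, hUXc, hUYc, hW]
    omega
  · have h1 := sum_sdiff (f := fun x : G => x) hsub
    rw [sum_union hdis, hUXs, hUYs, hxy] at h1
    exact add_eq_right.1 h1

end J2M

open J2M in
/-- the index is one; `hoc`: there are enough omitted elements -/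
theorem index_one_of {G : Type*} [AddCommGroup G] [Finite G] [DecidableEq G]
    {m n c j o τ loss k t' Z : ℕ} {Γ K H : AddSubgroup G} {e q : G}
    {A S : Finset G} {z : G → ℤ} {u v : ℤ} (hexp : ∀ x : G, n • x = 0) (hn : 0 < n)
    (h : Amj Γ K H e q A S z m n c j o τ loss k t' Z u v) (hj : 1 ≤ j) (hτ : 100 * m ≤ 101 * τ)
    (hloss : 1000 * loss ≤ m) (hm : 1000 ≤ m)
    (hoc : o + 1 ≤ m → 3 * m ≤ n → o + 2 ≤ c) (hno : ¬ Hit A n 0) : j = 1 := by
  classical
  by_contra hj1
  have hj2 : 2 ≤ j := by omega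
  obtain ⟨s, hs⟩ := h.on
  have ho : 0 < o := by
    rcases Nat.eq_zero_or_pos o with h0 | h0
    · rw [h0, zero_mul] at hs
      omega
    · exact h0
  have hs1 : 1 ≤ s := by
    rcases Nat.eq_zero_or_pos s with h0 | h0
    · rw [h0, mul_zero] at hs
      omega
    · exact h0
  -- `h j = m s`
  have hh : Nat.card H * j = m * s := by
    have h1 := h.cardK
    rw [← h.cardH, hs] at h1
    have h2 : o * (Nat.card H * j) = o * (m * s) := by
      calc o * (Nat.card H * j) = Nat.card H * o * j := by ring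
        _ = m * (o * s) := h1
        _ = o * (m * s) := by ring
    exact Nat.eq_of_mul_eq_mul_left ho h2
  have hoe : o • e ∈ H := by
    have h1 : o • (e : G ⧸ H) = 0 := by
      rw [← h.order]
      exact addOrderOf_nsmul_eq_zero _
    rw [← QuotientAddGroup.mk_nsmul] at h1
    exact (QuotientAddGroup.eq_zero_iff _).1 h1
  -- the numbers as integers
  have z1 : (n : ℤ) = o * s := by exact_mod_cast hs
  have z2 : (n : ℤ) ≤ k + loss := by exact_mod_cast h.nk
  have z3 : (k : ℤ) ≤ n := by exact_mod_cast h.kn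
  have z4 : (n : ℤ) + τ ≤ k + t' + loss := by
    have h1 := h.hloss
    rw [h.cardS] at h1
    exact_mod_cast h1
  have z9 : 100 * (m : ℤ) ≤ 101 * τ := by exact_mod_cast hτ
  have z10 : 1000 * (loss : ℤ) ≤ m := by exact_mod_cast hloss
  have z11 : (1000 : ℤ) ≤ m := by exact_mod_cast hm
  have zs : (1 : ℤ) ≤ s := by exact_mod_cast hs1
  have zh : (Nat.card H : ℤ) * j = m * s := by exact_mod_cast hh
  have z8 : 2 * (Nat.card H : ℤ) ≤ m * s := by
    rw [← zh, mul_comm]
    exact mul_le_mul_of_nonneg_left (by exact_mod_cast hj2) (by positivity)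
  have hP := dist_nonneg S z u v
  have hcard := card_le S z h.uv
  rw [h.cardS] at hcard
  push_cast at hcard
  have hwin := h.win
  have hrow : ∀ i : ℤ, (#(RK.row S z i) : ℤ) ≤ Nat.card H := by
    intro i
    exact_mod_cast RK.card_row_le h.lift i
  have hIcc : ∑ i ∈ Icc u v, (#(RK.row S z i) : ℤ) ≤ (v - u + 1) * Nat.card H := by
    refine (sum_le_card_nsmul _ _ (Nat.card H : ℤ) fun i _ => hrow i).trans ?_
    rw [Int.card_Icc, nsmul_eq_mul]
    have h1 : (((v + 1 - u).toNat : ℕ) : ℤ) = v - u + 1 := by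
      have := h.uv
      omega
    rw [h1]
  set P : ℤ := ∑ x ∈ S.filter (fun x => v < z x), (z x - v) +
        ∑ x ∈ S.filter (fun x => z x < u), (u - z x) with hPdef
  have hwin' : (t' : ℤ) * (v - u) + P + 2 ≤ o := by
    rw [hPdef]
    linarith
  have huv := h.uv
  rcases (show v - u = 0 ∨ v - u = 1 ∨ 2 ≤ v - u by omega) with hD | hD | hD
  · -- one row
    have hvu : v = u := by omega
    rw [hD] at hwin' hIcc
    rw [hvu, Icc_self, sum_singleton] at hcard hIcc
    have h1 := num_zero z1 z3 z4 (by linarith) hcard (by linarith) z8 z9 z10 z11 zs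
    have h2 := h.row (q + u • e) (RK.row S z u)
      (fun x hx => h.sub (RK.mem_row.1 hx).1) (fun x hx => by
        have h3 := RK.mem_row.1 hx
        have h4 := h.lift x h3.1
        rw [h3.2] at h4
        rwa [sub_sub] at h4)
    have h3 : (#(RK.row S z u) : ℤ) < n + loss := by exact_mod_cast h2
    linarith
  · -- two rows
    have hvu : v = u + 1 := by omega
    rw [hD] at hwin' hIcc
    rcases Nat.lt_or_ge j 3 with hj3 | hj3
    · -- index two
      have hj' : j = 2 := by omega
      rw [hj'] at zh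
      obtain ⟨a1, a2, a3, a4⟩ := num_two (h := (Nat.card H : ℤ)) z1 z2 z3 z4 (by linarith) hcard
        (by linarith) (by push_cast at zh; linarith) z9 z10 z11 hP zs
      have ht := num_t z3 z4 z9 z10 z11
      have b1 : o + 1 ≤ m := by exact_mod_cast a1
      have b2 : 3 * m ≤ n := by exact_mod_cast a2
      have hmc1 := hoc b1 b2
      -- the sets
      have hcH : Nat.card K * 2 = Nat.card Γ := by
        rw [h.cardΓ, ← hj']
        exact h.cardK
      set AK := A.filter (fun x => x - q ∈ K) with hAK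
      set B := A.filter (fun x => x - q ∉ K) with hB
      have hABc : #AK + #B = n + c := by
        rw [← h.card]
        exact card_filter_add_card_filter_not _
      have hAKc : #AK ≤ #S + loss :=
        h.inK AK (filter_subset _ _) (fun x hx => (mem_filter.1 hx).2)
      have hSAK : S ⊆ AK := by
        intro x hx
        rw [hAK, mem_filter]
        refine ⟨h.sub hx, ?_⟩
        have h1 := K.add_mem (h.HK (h.lift x hx)) (K.zsmul_mem h.eK (z x))
        rwa [sub_add_cancel] at h1
      have hScard := card_le_card hSAK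
      have hkt := h.cardS
      have hnn : n ≤ #AK := by
        have h1 : (n : ℤ) ≤ #AK := by
          have h2 : (#S : ℤ) ≤ #AK := by exact_mod_cast hScard
          rw [hkt] at h2
          push_cast at h2
          linarith
        exact_mod_cast h1
      have hto : t' + 2 ≤ o := by
        have h1 : (t' : ℤ) + 2 ≤ o := by linarith
        exact_mod_cast h1
      have hkn := h.kn
      obtain ⟨β, hβ, hβe, hβ1, hβ2⟩ := exists_beta (c₀ := #AK - n) (b := #B) (o := o)
        (loss := loss) (by omega) (by omega)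
      obtain ⟨B', hB', hB'c⟩ := exists_subset_card_eq hβ
      have hdis : Disjoint AK B' := by
        rw [Finset.disjoint_left]
        intro x hx hx'
        exact (mem_filter.1 (hB' hx')).2 (mem_filter.1 hx).2
      set X := A.filter (fun x => x - (q + (u + 1) • e) ∈ H) with hX
      set Y := A.filter (fun x => x - (q + u • e) ∈ H) with hY
      have hsubK : ∀ i : ℤ, ∀ x : G, x - (q + i • e) ∈ H → x - q ∈ K := by
        intro i x hx
        have h1 := K.add_mem (h.HK hx) (K.zsmul_mem h.eK i)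
        rwa [← sub_sub, sub_add_cancel] at h1
      have hXA : X ⊆ AK := by
        intro x hx
        rw [hX, mem_filter] at hx
        rw [hAK, mem_filter]
        exact ⟨hx.1, hsubK _ x hx.2⟩
      have hYA : Y ⊆ AK := by
        intro x hx
        rw [hY, mem_filter] at hx
        rw [hAK, mem_filter]
        exact ⟨hx.1, hsubK _ x hx.2⟩
      have hXH : #X ≤ Nat.card H := card_le_of_coset H _ (fun x hx => (mem_filter.1 hx).2)
      have hYH : #Y ≤ Nat.card H := card_le_of_coset H _ (fun x hx => (mem_filter.1 hx).2)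
      have hrowX : #(RK.row S z (u + 1)) ≤ #X := by
        refine card_le_card fun x hx => ?_
        have h1 := RK.mem_row.1 hx
        have h2 := h.lift x h1.1
        rw [h1.2, sub_sub] at h2
        exact mem_filter.2 ⟨h.sub h1.1, h2⟩
      have hrowY : #(RK.row S z u) ≤ #Y := by
        refine card_le_card fun x hx => ?_
        have h1 := RK.mem_row.1 hx
        have h2 := h.lift x h1.1
        rw [h1.2, sub_sub] at h2
        exact mem_filter.2 ⟨h.sub h1.1, h2⟩
      have hXYd : Disjoint X Y := by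
        rw [Finset.disjoint_left]
        intro x hx hx'
        have h1 := H.sub_mem (mem_filter.1 hx').2 (mem_filter.1 hx).2
        have h2 : x - (q + u • e) - (x - (q + (u + 1) • e)) = e := by
          rw [add_smul, one_smul]
          abel
        rw [h2] at h1
        have h3 : addOrderOf (e : G ⧸ H) = 1 := by
          rw [AddMonoid.addOrderOf_eq_one_iff]
          exact (QuotientAddGroup.eq_zero_iff _).2 h1
        rw [h.order] at h3
        omega
      have hIsum : ∑ i ∈ Icc u v, (#(RK.row S z i) : ℤ) =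
          #(RK.row S z u) + #(RK.row S z (u + 1)) := by
        have h1 : Icc u v = {u, u + 1} := by
          ext i
          rw [mem_Icc, mem_insert, mem_singleton]
          omega
        rw [h1, sum_pair (by omega)]
      rw [hIsum] at a3
      have a3' : Nat.card H + (o + 2 + loss) ≤ #X + #Y := by
        have h1 : (#(RK.row S z (u + 1)) : ℤ) ≤ #X := by exact_mod_cast hrowX
        have h2 : (#(RK.row S z u) : ℤ) ≤ #Y := by exact_mod_cast hrowY
        have h3 : (Nat.card H : ℤ) + (o + 2 + loss) ≤ #X + #Y := by linarith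
        exact_mod_cast h3
      refine hno (hit_two_rows (H := H) (K := K) (e := e) (q := q) (A := A) (W := AK ∪ B')
        (X := X) (Y := Y) (n := n) (o := o) (c := #AK - n + β) (u := u) ?_ ?_ ?_ ?_ hXYd ?_
        h.gen hoe ho hβ1 ?_ ?_ (by omega) (by omega) (by omega))
      · exact union_subset (filter_subset _ _) (hB'.trans (filter_subset _ _))
      · rw [card_union_of_disjoint hdis, hB'c]
        omega
      · exact hXA.trans subset_union_left
      · exact hYA.trans subset_union_left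
      · have h1 : ∑ x ∈ AK, (x - q) ∈ K := K.sum_mem fun x hx => (mem_filter.1 hx).2
        have hqΓ : q ∈ Γ := h.inΓ q (h.sub h.qS)
        have h2 : ∑ x ∈ B', (x - q) ∈ K := by
          rw [sum_mem_iff h.KΓ hcH B'
            (fun x hx => Γ.sub_mem (h.inΓ x (mem_filter.1 (hB' hx)).1) hqΓ)
            (fun x hx => (mem_filter.1 (hB' hx)).2), hB'c]
          exact hβe
        have h3 := K.add_mem h1 h2
        rw [sum_sub_distrib, sum_sub_distrib, sum_const, sum_const, hB'c] at h3
        have h4 : ∑ x ∈ AK ∪ B', x - (#AK - n + β) • q =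
            ∑ x ∈ AK, x - #AK • q + (∑ x ∈ B', x - β • q) := by
          rw [sum_union hdis, add_nsmul]
          have h5 : #AK • q = (#AK - n) • q := by
            conv_lhs => rw [← Nat.sub_add_cancel hnn]
            rw [add_nsmul, hexp, add_zero]
          rw [h5]
          abel
        rw [h4]
        exact h3
      · intro x hx
        exact (mem_filter.1 hx).2
      · intro x hx
        exact (mem_filter.1 hx).2
    · -- index at least three
      have z8' : 3 * (Nat.card H : ℤ) ≤ m * s := by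
        rw [← zh, mul_comm]
        exact mul_le_mul_of_nonneg_left (by exact_mod_cast hj3) (by positivity)
      exact num_three z1 z3 z4 (by linarith) hcard (by linarith) z8' z9 z10 z11 hP zs
  · -- three rows
    exact num_ge_two z1 z3 z4 hwin' hcard hIcc z8 z9 z10 z11 hP hD zs

/-- **The index is one**, general form. -/
theorem index_one_gen {G : Type*} [AddCommGroup G] [Finite G] [DecidableEq G]
    {m n c j o τ loss k t' Z : ℕ} {Γ K H : AddSubgroup G} {e q : G}
    {A S : Finset G} {z : G → ℤ} {u v : ℤ} (hexp : ∀ x : G, n • x = 0) (hn : 0 < n)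
    (h : Amj Γ K H e q A S z m n c j o τ loss k t' Z u v) (hj : 1 ≤ j) (hτ : 100 * m ≤ 101 * τ)
    (hloss : 1000 * loss ≤ m) (hm : 1000 ≤ m) (hmc : m ≤ c)
    (hmc' : m + 1 ≤ c ∨ n < 3 * m ∨ 2 * (n + m) ≤ m * m) (hdvd : m ∣ n)
    (hno : ¬ Hit A n 0) : j = 1 := by
  refine index_one_of hexp hn h hj hτ hloss hm (fun h1 h2 => ?_) hno
  rcases hmc' with h3 | h3 | h3
  · omega
  · omega
  · -- `o` divides `n = t m`, `o < m`
    obtain ⟨s, hs⟩ := h.on
    obtain ⟨t, ht⟩ := hdvd
    have hts : t + 1 ≤ s := by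
      by_contra hlt
      push Not at hlt
      have h4 : o * s ≤ o * t := Nat.mul_le_mul_left o (by omega)
      have h5 : o * t ≤ (m - 1) * t := Nat.mul_le_mul_right t (by omega)
      have h6 : (m - 1) * t + t = m * t := by
        rw [← Nat.succ_mul, Nat.succ_eq_add_one, Nat.sub_add_cancel (by omega)]
      have ht0 : 1 ≤ t := by
        rcases Nat.eq_zero_or_pos t with h7 | h7
        · rw [h7, mul_zero] at ht
          omega
        · exact h7
      omega
    -- `o (t + 1) ≤ m t` and `2 (t + 1) ≤ m`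
    have h4 : o * (t + 1) ≤ m * t := by
      calc o * (t + 1) ≤ o * s := Nat.mul_le_mul_left o hts
        _ = m * t := by rw [← hs, ht]
    have h5 : 2 * (t + 1) ≤ m := by
      have h6 : m * (2 * (t + 1)) ≤ m * m := by
        calc m * (2 * (t + 1)) = 2 * (m * t + m) := by ring
          _ = 2 * (n + m) := by rw [ht]
          _ ≤ m * m := h3
      exact Nat.le_of_mul_le_mul_left h6 (by omega)
    have h7 : o + 2 ≤ m := by
      by_contra hlt
      push Not at hlt
      have h8 : (m - 1) * (t + 1) ≤ o * (t + 1) := Nat.mul_le_mul_right _ (by omega)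
      have h9 : (m - 1) * (t + 1) + (t + 1) = m * (t + 1) := by
        rw [← Nat.succ_mul, Nat.succ_eq_add_one, Nat.sub_add_cancel (by omega)]
      have h10 : m * (t + 1) = m * t + m := by ring
      omega
    omega

/-- **The index is one.** -/
theorem index_one {m n c j o τ loss k t' Z : ℕ} [NeZero n]
    {Γ K H : AddSubgroup (ZMod n × ZMod n)} {e q : ZMod n × ZMod n}
    {A S : Finset (ZMod n × ZMod n)} {z : ZMod n × ZMod n → ℤ} {u v : ℤ}
    (h : Amj Γ K H e q A S z m n c j o τ loss k t' Z u v) (hj : 1 ≤ j) (hτ : 100 * m ≤ 101 * τ)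
    (hloss : 1000 * loss ≤ m) (hm : 1000 ≤ m) (_hmc : m ≤ c) (hmc' : 3 * m ≤ n → m + 1 ≤ c)
    (_hmn : 2 * m ≤ n) (_hdvd : m ∣ n) (_hτc : τ ≤ c) (hno : ¬ Hit A n 0) : j = 1 := by
  refine index_one_of (fun x => ?_) (Nat.pos_of_ne_zero (NeZero.ne n)) h hj hτ hloss hm
    (fun h1 h2 => ?_) hno
  · ext <;> simp
  · have := hmc' h2
    omega

/-- **The index is one**, with the weaker condition on `c`. -/
theorem index_one' {m n c j o τ loss k t' Z : ℕ} [NeZero n]
    {Γ K H : AddSubgroup (ZMod n × ZMod n)} {e q : ZMod n × ZMod n}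
    {A S : Finset (ZMod n × ZMod n)} {z : ZMod n × ZMod n → ℤ} {u v : ℤ}
    (h : Amj Γ K H e q A S z m n c j o τ loss k t' Z u v) (hj : 1 ≤ j) (hτ : 100 * m ≤ 101 * τ)
    (hloss : 1000 * loss ≤ m) (hm : 1000 ≤ m) (hmc : m ≤ c)
    (hmc' : m + 1 ≤ c ∨ n < 3 * m ∨ 2 * (n + m) ≤ m * m) (hdvd : m ∣ n)
    (hno : ¬ Hit A n 0) : j = 1 := by
  refine index_one_gen (fun x => ?_) (Nat.pos_of_ne_zero (NeZero.ne n)) h hj hτ hloss hm hmc hmc'
    hdvd hno
  ext <;> simp

end Pool.Agent.Lib.MPa7239a.RS
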