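import Pool.Agent.Lib.MP_a7239a_co.RS.Defs

/-!
# The parameters exist
-/

open Finset

namespace Pool.Agent.Lib.MPa7239a.RS

open Pool.Agent.Lib.MPa7239a.GC

namespace PARSM

/-- the choice of `M`, `Λ`, `k` -/
theorem choose_params {m Q s : ℕ} (hQ : 1 ≤ Q) (hs : s * s ≤ m) (hs' : m < (s + 1) * (s + 1))
    (hsQ : 84 * Q ^ 2 < s) :
    ∃ M Λ k : ℕ, 1 ≤ M ∧ 3 * m ≤ Λ * M ∧ (k + 1) * Λ < M ∧ 26 * m ≤ (k + 1) ^ 2 ∧
      28 * Λ ^ 2 ≤ M ∧ Q * M ≤ m := by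
  have hQ2 : Q ≤ Q ^ 2 := by nlinarith
  have hQm : Q ≤ m := by nlinarith
  have hM1 : 1 ≤ m / Q := (Nat.one_le_div_iff (by omega)).2 hQm
  set M := m / Q with hM
  have hMQ : Q * M ≤ m := Nat.mul_div_le m Q
  have hMQ' : m < Q * M + Q := by
    have h1 := Nat.div_add_mod m Q
    have h2 := Nat.mod_lt m (show 0 < Q by omega)
    rw [← hM] at h1
    omega
  have hm2 : m ≤ 2 * (M * Q) := by nlinarith
  set Λ := 3 * m / M + 1 with hΛ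
  have hΛM : 3 * m ≤ Λ * M := by
    have h1 := Nat.div_add_mod (3 * m) M
    have h2 := Nat.mod_lt (3 * m) (show 0 < M by omega)
    rw [hΛ]
    nlinarith
  have hΛQ : Λ ≤ 7 * Q := by
    have h1 : 3 * m / M ≤ 6 * Q := by
      refine Nat.div_le_of_le_mul ?_
      nlinarith
    omega
  refine ⟨M, Λ, 6 * s - 1, hM1, hΛM, ?_, ?_, ?_, hMQ⟩
  · have h1 : 6 * s - 1 + 1 = 6 * s := by omega
    rw [h1]
    have h2 : 6 * s * Λ ≤ 42 * (s * Q) := by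
      calc 6 * s * Λ ≤ 6 * s * (7 * Q) := Nat.mul_le_mul_left _ hΛQ
        _ = 42 * (s * Q) := by ring
    refine lt_of_le_of_lt h2 ?_
    by_contra hlt
    push Not at hlt
    have h3 : m ≤ 84 * Q ^ 2 * s := by
      calc m ≤ 2 * (M * Q) := hm2
        _ ≤ 2 * (42 * (s * Q) * Q) := by
            refine Nat.mul_le_mul_left _ (Nat.mul_le_mul_right _ hlt)
        _ = 84 * Q ^ 2 * s := by ring
    have h4 : 84 * Q ^ 2 * s < s * s := Nat.mul_lt_mul_of_pos_right hsQ (by omega)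
    omega
  · have h1 : 6 * s - 1 + 1 = 6 * s := by omega
    rw [h1]
    nlinarith
  · have h1 : 28 * Λ ^ 2 ≤ 1372 * Q ^ 2 := by
      calc 28 * Λ ^ 2 ≤ 28 * (7 * Q) ^ 2 := by
            refine Nat.mul_le_mul_left _ (Nat.pow_le_pow_left hΛQ 2)
        _ = 1372 * Q ^ 2 := by ring
    refine h1.trans ?_
    by_contra hlt
    push Not at hlt
    have h3 : m ≤ 2744 * Q ^ 3 := by
      calc m ≤ 2 * (M * Q) := hm2
        _ ≤ 2 * (1372 * Q ^ 2 * Q) := by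
            refine Nat.mul_le_mul_left _ (Nat.mul_le_mul_right _ hlt.le)
        _ = 2744 * Q ^ 3 := by ring
    have h4 : (84 * Q ^ 2) * (84 * Q ^ 2) ≤ s * s := Nat.mul_le_mul hsQ.le hsQ.le
    have h5 : Q ^ 3 ≤ Q ^ 4 := Nat.pow_le_pow_right hQ (by norm_num)
    have h6 : (84 * Q ^ 2) * (84 * Q ^ 2) = 7056 * Q ^ 4 := by ring
    have h7 : 1 ≤ Q ^ 3 := Nat.one_le_pow _ _ hQ
    omega

end PARSM

open PARSM in
/-- the parameters exist for `m ≥ 10 ^ 40 (log n) ^ 12` -/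
theorem exists_par {m n : ℕ} (hmn : m ≤ n)
    (hm : 10 ^ 40 * (Nat.log 2 n + 1) ^ 12 ≤ m) :
    ∃ ℓ M Λ k : ℕ, Par m n ℓ M Λ k ∧ ℓ = Nat.log 2 n + 1 ∧
      400000 * (2592 * M * ℓ ^ 3 + 1) ≤ m := by
  set ℓ := Nat.log 2 n + 1 with hℓ
  have hℓ1 : 1 ≤ ℓ := by omega
  have hn16 : 16 ≤ n := by
    have h1 : 1 ≤ ℓ ^ 12 := Nat.one_le_pow _ _ hℓ1
    have h2 : 10 ^ 40 * 1 ≤ 10 ^ 40 * ℓ ^ 12 := Nat.mul_le_mul_left _ h1
    have h3 : (16 : ℕ) ≤ 10 ^ 40 * 1 := by norm_num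
    omega
  have hℓ5 : 5 ≤ ℓ := by
    have h1 : 4 ≤ Nat.log 2 n := by
      refine Nat.le_log_of_pow_le (by norm_num) ?_
      norm_num
      exact hn16
    omega
  have hnℓ : n < 2 ^ ℓ := by
    rw [hℓ]
    exact Nat.lt_pow_succ_log_self (by norm_num) n
  set s := Nat.sqrt m with hs
  have hs1 : s * s ≤ m := Nat.sqrt_le m
  have hs2 : m < (s + 1) * (s + 1) := Nat.lt_succ_sqrt m
  have hs3 : 10 ^ 20 * ℓ ^ 6 ≤ s := by
    rw [hs, Nat.le_sqrt]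
    calc 10 ^ 20 * ℓ ^ 6 * (10 ^ 20 * ℓ ^ 6) = 10 ^ 40 * ℓ ^ 12 := by ring
      _ ≤ m := hm
  set Q := 2592 * 400001 * ℓ ^ 3 with hQ
  have hQ1 : 1 ≤ Q := by
    have h1 : 1 ≤ ℓ ^ 3 := Nat.one_le_pow _ _ hℓ1
    omega
  have hsQ : 84 * Q ^ 2 < s := by
    have h1 : 84 * Q ^ 2 = 84 * (2592 * 400001) ^ 2 * ℓ ^ 6 := by
      rw [hQ]
      ring
    have h2 : 84 * (2592 * 400001) ^ 2 < 10 ^ 20 := by norm_num
    have h3 : 0 < ℓ ^ 6 := Nat.pow_pos (by omega)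
    calc 84 * Q ^ 2 = 84 * (2592 * 400001) ^ 2 * ℓ ^ 6 := h1
      _ < 10 ^ 20 * ℓ ^ 6 := Nat.mul_lt_mul_of_pos_right h2 h3
      _ ≤ s := hs3
  obtain ⟨M, Λ, k, h1, h2, h3, h4, h5, h6⟩ := choose_params hQ1 hs1 hs2 hsQ
  have h7 : 2592 * 400000 * M * ℓ ^ 3 + 2592 * (M * ℓ ^ 3) = Q * M := by
    rw [hQ]
    ring
  have h8 : 400000 * (2592 * M * ℓ ^ 3 + 1) = 2592 * 400000 * M * ℓ ^ 3 + 400000 := by
    ring
  have h9 : 400000 ≤ 2592 * (M * ℓ ^ 3) := by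
    have a1 : 3 * Q ≤ Λ := by
      have a2 : M * (3 * Q) ≤ M * Λ := by
        calc M * (3 * Q) = 3 * (Q * M) := by ring
          _ ≤ 3 * m := Nat.mul_le_mul_left 3 h6
          _ ≤ Λ * M := h2
          _ = M * Λ := mul_comm _ _
      exact Nat.le_of_mul_le_mul_left a2 h1
    have a3 : 1 ≤ ℓ ^ 3 := Nat.one_le_pow _ _ hℓ1
    have a4 : 2592 * 400001 ≤ Q := by
      rw [hQ]
      exact Nat.le_mul_of_pos_right _ (by omega)
    have a5 : 400000 ≤ Λ := by omega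
    have a6 : Λ ≤ Λ ^ 2 := Nat.le_self_pow (by norm_num) Λ
    have a7 : M * 1 ≤ M * ℓ ^ 3 := Nat.mul_le_mul_left M a3
    omega
  refine ⟨ℓ, M, Λ, k, ⟨hnℓ, ?_, h1, hmn, h2, h3, h4, h5, ?_⟩, hℓ, ?_⟩
  · have hpow : ∀ x : ℕ, 5 ≤ x → 3 * x + 1 ≤ 2 ^ x := by
      intro x hx
      induction x, hx using Nat.le_induction with
      | base => norm_num
      | succ x hx ih =>
        have h9 : 2 ^ (x + 1) = 2 * 2 ^ x := by ring
        omega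
    have h10' : n ^ 2 < (2 ^ ℓ) ^ 2 := Nat.pow_lt_pow_left hnℓ (by norm_num)
    have h10 : 2 ^ (3 * ℓ) = 2 ^ ℓ * (2 ^ ℓ) ^ 2 := by
      rw [← pow_mul, ← pow_add]
      congr 1
      ring
    rw [h10]
    calc (3 * ℓ + 1) * n ^ 2 ≤ 2 ^ ℓ * n ^ 2 := Nat.mul_le_mul_right _ (hpow ℓ hℓ5)
      _ < 2 ^ ℓ * (2 ^ ℓ) ^ 2 := Nat.mul_lt_mul_of_pos_left h10' (by positivity)
  · omega
  · rw [h8]
    omega

end Pool.Agent.Lib.MPa7239a.RS
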