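import Pool.Agent.Lib.MP_a7239a_co.RS.Defs
import Pool.Agent.Lib.MP_a7239a_co.GC.GROW

/-!
# Popular differences: the filled set is everything or dense
-/

open Finset

namespace Pool.Agent.Lib.MPa7239a.RS

open Pool.Agent.Lib.MPa7239a.GC

namespace Balf

variable {G : Type*} [AddCommGroup G] [DecidableEq G]

theorem mem_Df {S : Finset G} {v : G} : v ∈ Df S ↔ ∃ a ∈ S, ∃ b ∈ S, b - a = v := by
  unfold Df
  rw [mem_image]
  constructor
  · rintro ⟨⟨a, b⟩, hp, rfl⟩
    rw [mem_product] at hp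
    exact ⟨a, hp.1, b, hp.2, rfl⟩
  · rintro ⟨a, ha, b, hb, rfl⟩
    exact ⟨(a, b), mem_product.2 ⟨ha, hb⟩, rfl⟩

theorem zero_mem {S : Finset G} (hS : S.Nonempty) : (0 : G) ∈ Df S := by
  obtain ⟨a, ha⟩ := hS
  exact mem_Df.2 ⟨a, ha, a, ha, sub_self a⟩

theorem neg_mem {S : Finset G} : ∀ x ∈ Df S, -x ∈ Df S := by
  intro x hx
  obtain ⟨a, ha, b, hb, rfl⟩ := mem_Df.1 hx
  exact mem_Df.2 ⟨b, hb, a, ha, by abel⟩

theorem card_le {S : Finset G} (hS : S.Nonempty) : #S ≤ #(Df S) := by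
  obtain ⟨a, ha⟩ := hS
  apply card_le_card_of_injOn (fun x => x - a)
  · intro x hx
    exact mem_Df.2 ⟨a, ha, x, hx, rfl⟩
  · intro x _ y _ hxy
    exact sub_left_injective hxy

/-- the number of elements that leave `F` -/
def bad (F : Finset G) (v : G) : ℕ := #(F.filter (fun f => f + v ∉ F))

theorem bad_zero (F : Finset G) : bad F 0 = 0 := by
  unfold bad
  rw [card_eq_zero, filter_eq_empty_iff]
  intro f hf h
  rw [add_zero] at h
  exact h hf

theorem bad_add (F : Finset G) (v w : G) : bad F (v + w) ≤ bad F v + bad F w := by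
  unfold bad
  have h1 : F.filter (fun f => f + (v + w) ∉ F) ⊆
      F.filter (fun f => f + v ∉ F) ∪
        (F.filter (fun f => f + w ∉ F)).image (fun f => f - v) := by
    intro f hf
    rw [mem_filter] at hf
    rw [mem_union, mem_filter, mem_image]
    by_cases hv : f + v ∈ F
    · right
      refine ⟨f + v, mem_filter.2 ⟨hv, ?_⟩, add_sub_cancel_right f v⟩
      rw [add_assoc]
      exact hf.2
    · left
      exact ⟨hf.1, hv⟩
  calc #(F.filter (fun f => f + (v + w) ∉ F)) ≤ _ := card_le_card h1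
    _ ≤ _ := card_union_le _ _
    _ ≤ _ := Nat.add_le_add_left card_image_le _

theorem bad_ball {S F : Finset G} {M : ℕ} (hp : ∀ v ∈ Df S, 8 * M * bad F v ≤ #F) (k : ℕ) :
    ∀ v ∈ ball (Df S) k, 8 * M * bad F v ≤ k * #F := by
  induction k with
  | zero =>
    intro v hv
    rw [mem_ball_zero] at hv
    rw [hv, bad_zero, mul_zero]
    exact Nat.zero_le _
  | succ k ih =>
    intro v hv
    obtain ⟨y, hy, d, hd, rfl⟩ := mem_ball_succ.1 hv
    have h1 := ih y hy
    have h2 := hp d hd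
    have h3 := Nat.mul_le_mul_left (8 * M) (bad_add F y d)
    rw [mul_add] at h3
    rw [add_mul, one_mul]
    omega

theorem stay {S F : Finset G} {M k : ℕ} (hM : 1 ≤ M) (hk : k ≤ 2 * M)
    (hp : ∀ v ∈ Df S, 8 * M * bad F v ≤ #F) {v : G} (hv : v ∈ ball (Df S) k) :
    3 * #F ≤ 4 * #(F.filter (fun f => f + v ∈ F)) := by
  have h1 := bad_ball hp k v hv
  have h2 : k * #F ≤ 2 * M * #F := Nat.mul_le_mul_right _ hk
  have h3 : 4 * bad F v ≤ #F := by
    have h4 : (2 * M) * (4 * bad F v) ≤ (2 * M) * #F := by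
      calc (2 * M) * (4 * bad F v) = 8 * M * bad F v := by ring
        _ ≤ k * #F := h1
        _ ≤ 2 * M * #F := h2
    exact Nat.le_of_mul_le_mul_left h4 (by omega)
  have h5 : #(F.filter (fun f => f + v ∈ F)) + bad F v = #F :=
    card_filter_add_card_filter_not (fun f => f + v ∈ F)
  omega

/-- double counting -/
theorem count {F B : Finset G} (hB : ∀ v ∈ B, 3 * #F ≤ 4 * #(F.filter (fun f => f + v ∈ F))) :
    3 * #F * #B ≤ 4 * (#F * #F) := by
  have h1 : ∑ v ∈ B, #(F.filter (fun f => f + v ∈ F)) ≤ #F * #F := by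
    have h2 : ∑ v ∈ B, #(F.filter (fun f => f + v ∈ F)) =
        #((B ×ˢ F).filter (fun p => p.2 + p.1 ∈ F)) := by
      rw [card_filter, sum_product]
      apply sum_congr rfl
      intro v _
      rw [card_filter]
    rw [h2, ← card_product]
    apply card_le_card_of_injOn (fun p => (p.2, p.2 + p.1))
    · intro p hp
      rw [mem_coe, mem_filter, mem_product] at hp
      rw [mem_coe, mem_product]
      exact ⟨hp.1.2, hp.2⟩
    · intro p _ p' _ h
      simp only [Prod.mk.injEq] at h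
      obtain ⟨h3, h4⟩ := h
      rw [h3] at h4
      exact Prod.ext (add_left_cancel h4) h3
  calc 3 * #F * #B = ∑ _v ∈ B, 3 * #F := by rw [sum_const, smul_eq_mul, mul_comm]
    _ ≤ ∑ v ∈ B, 4 * #(F.filter (fun f => f + v ∈ F)) := sum_le_sum hB
    _ = 4 * ∑ v ∈ B, #(F.filter (fun f => f + v ∈ F)) := by rw [mul_sum]
    _ ≤ 4 * (#F * #F) := Nat.mul_le_mul_left _ h1

theorem large {F B : Finset G} (h0 : (0 : G) ∈ F)
    (hB : ∀ v ∈ B, 3 * #F ≤ 4 * #(F.filter (fun f => f + v ∈ F))) : 3 * #B ≤ 4 * #F := by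
  have h1 := count hB
  have h2 : 0 < #F := card_pos.2 ⟨0, h0⟩
  have h3 : #F * (3 * #B) ≤ #F * (4 * #F) := by
    calc #F * (3 * #B) = 3 * #F * #B := by ring
      _ ≤ 4 * (#F * #F) := h1
      _ = #F * (4 * #F) := by ring
  exact Nat.le_of_mul_le_mul_left h3 h2

/-- a stable ball is the subgroup -/
theorem ball_closed {S : Finset G} (hS : S.Nonempty) {i : ℕ}
    (hi : ball (Df S) (i + 1) = ball (Df S) i) {g : G}
    (hg : g ∈ AddSubgroup.closure (Df S : Set G)) : g ∈ ball (Df S) i := by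
  refine AddSubgroup.closure_induction_right (p := fun x _ => x ∈ ball (Df S) i) ?_ ?_ ?_ hg
  · exact zero_mem_ball (zero_mem hS) i
  · intro x _ y hy hx
    rw [← hi]
    exact mem_ball_succ.2 ⟨x, hx, y, hy, rfl⟩
  · intro x _ y hy hx
    rw [← hi]
    exact mem_ball_succ.2 ⟨x, hx, -y, neg_mem y hy, rfl⟩

theorem dense {S F : Finset G} (hS : S.Nonempty) {M : ℕ} (hM : 1 ≤ M) (h0 : (0 : G) ∈ F)
    (hp : ∀ v ∈ Df S, 8 * M * bad F v ≤ #F)
    (hns : ∀ i < 2 * M, ball (Df S) (i + 1) ≠ ball (Df S) i) : M * #S ≤ 2 * #F := by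
  have h1 := growth (zero_mem hS) neg_mem hns (a := 1) (k := 2 * M) le_rfl (by omega)
  rw [one_mul, card_ball_one] at h1
  have h2 := large h0 (B := ball (Df S) (2 * M)) (fun v hv => stay hM le_rfl hp hv)
  have h3 := Nat.mul_le_mul_left (2 * M) (card_le hS)
  have h4 : 2 * M * #S = 2 * (M * #S) := by ring
  omega

end Balf

open Balf

theorem full_or_dense {G : Type*} [AddCommGroup G] [Fintype G] [DecidableEq G]
    {S F F' : Finset G} (hS : S.Nonempty) {M : ℕ} (hM : 1 ≤ M) (h0 : (0 : G) ∈ F)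
    (h0' : (0 : G) ∈ F') (hF : ∀ f ∈ F, f ∈ AddSubgroup.closure (Df S : Set G))
    (hF' : ∀ f ∈ F', f ∈ AddSubgroup.closure (Df S : Set G))
    (hp : ∀ v ∈ Df S, 8 * M * #(F.filter (fun f => f + v ∉ F)) ≤ #F)
    (hp' : ∀ v ∈ Df S, 8 * M * #(F'.filter (fun f => f + v ∉ F')) ≤ #F') :
    (∀ g ∈ AddSubgroup.closure (Df S : Set G), ∃ f ∈ F, ∃ f' ∈ F', f + f' = g) ∨
      (M * #S ≤ 2 * #F ∧ M * #S ≤ 2 * #F') := by
  classical
  by_cases hns : ∀ i < 2 * M, ball (Df S) (i + 1) ≠ ball (Df S) i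
  · exact Or.inr ⟨dense hS hM h0 hp hns, dense hS hM h0' hp' hns⟩
  · push Not at hns
    obtain ⟨i, hi, hst⟩ := hns
    left
    intro g hg
    set B : Finset G := univ.filter (fun x => x ∈ AddSubgroup.closure (Df S : Set G)) with hB
    have hBi : ∀ v ∈ B, v ∈ ball (Df S) i := by
      intro v hv
      rw [hB, mem_filter] at hv
      exact ball_closed hS hst hv.2
    have h1 := large h0 (B := B) (fun v hv => stay hM (by omega) hp (hBi v hv))
    have h2 := large h0' (B := B) (fun v hv => stay hM (by omega) hp' (hBi v hv))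
    have hFB : F ⊆ B := fun f hf => mem_filter.2 ⟨mem_univ _, hF f hf⟩
    have hF'B : F'.image (fun f => g - f) ⊆ B := by
      intro x hx
      obtain ⟨f, hf, rfl⟩ := mem_image.1 hx
      exact mem_filter.2 ⟨mem_univ _, sub_mem hg (hF' f hf)⟩
    have hc : #(F'.image (fun f => g - f)) = #F' :=
      card_image_of_injective _ (sub_right_injective (b := g))
    have hBpos : 0 < #B := card_pos.2 ⟨0, hFB h0⟩
    obtain ⟨x, hx⟩ : (F ∩ F'.image (fun f => g - f)).Nonempty := by
      rw [← card_pos]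
      have h3 := card_union_add_card_inter F (F'.image (fun f => g - f))
      have h4 := card_le_card (union_subset hFB hF'B)
      omega
    rw [mem_inter, mem_image] at hx
    obtain ⟨hxF, f', hf', rfl⟩ := hx
    exact ⟨g - f', hxF, f', hf', sub_add_cancel g f'⟩

end Pool.Agent.Lib.MPa7239a.RS
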