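import Pool.Agent.Lib.MP_a7239a_co.RS.MINK
import Pool.Agent.Lib.MP_a7239a_co.RS.PARS
import Pool.Agent.Lib.MP_a7239a_co.GC.MainC
import Pool.Agent.Lib.MP_a7239a_co.GC.UNI

/-!
# The Gao-Thangadurai conjecture for `n ≥ 10 ^ 40 (log₂ n + 1) ^ 12`

The structure theorem of the folder RS, for `ZMod n × ZMod n` itself.
-/

set_option autoImplicit false

open Finset

namespace Pool.Agent.Lib.MPa7239a.RS

open Pool.Agent.Lib.MPa7239a.GC

/-- numbers in the structure: `o = n`, `j = 1`, one or two main rows -/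
theorem gt_num {n o j hc k t' V P Q R Sc loss : ℕ} (hos : o ∣ n) (hn : 100 * loss + 100 ≤ n)
    (hcard : hc * (o * j) = n * n) (hj : 1 ≤ j) (hSc : Sc = k + t') (hkn : k ≤ n)
    (hS : 2 * n ≤ Sc + 4 * loss) (hsum : Sc = P + R) (hR : R ≤ (V + 1) * hc)
    (hwin : t' * V + (P + Q) + 2 ≤ o) (hrow : V = 0 → R < n + loss) :
    o = n ∧ j = 1 ∧ (V = 0 ∨ (V = 1 ∧ P ≤ 4 * loss)) := by
  have hon : o ≤ n := Nat.le_of_dvd (by omega) hos
  have ht' : n ≤ t' + 4 * loss := by omega
  have hV : V ≤ 1 := by
    by_contra h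
    have h1 : t' * 2 ≤ t' * V := Nat.mul_le_mul_left _ (by omega)
    omega
  have ho : n < 2 * o := by
    rcases Nat.eq_zero_or_pos V with h | h
    · have := hrow h
      omega
    · obtain rfl : V = 1 := by omega
      omega
  have hon' : o = n := by
    obtain ⟨a, ha⟩ := hos
    have h1 : a < 2 := by
      by_contra h
      push Not at h
      have : o * 2 ≤ o * a := Nat.mul_le_mul_left _ h
      omega
    have h2 : a ≠ 0 := by
      rintro rfl
      omega
    obtain rfl : a = 1 := by omega
    omega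
  have hcj : hc * j = n := by
    rw [hon'] at hcard
    have h1 : n * (hc * j) = n * n := by
      rw [← hcard]
      ring
    exact Nat.eq_of_mul_eq_mul_left (by omega) h1
  have hj1 : j = 1 := by
    by_contra h
    have h1 : hc * 2 ≤ hc * j := Nat.mul_le_mul_left _ (by omega)
    rcases Nat.eq_zero_or_pos V with h2 | h2
    · rw [h2, zero_add, one_mul] at hR
      omega
    · obtain rfl : V = 1 := by omega
      omega
  refine ⟨hon', hj1, ?_⟩
  rcases Nat.eq_zero_or_pos V with h | h
  · exact Or.inl h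
  · right
    obtain rfl : V = 1 := by omega
    exact ⟨rfl, by omega⟩

/-- THE UPPER BOUND -/
theorem hit_gt {n : ℕ} (hn : 10 ^ 40 * (Nat.log 2 n + 1) ^ 12 ≤ n)
    {A : Finset (ZMod n × ZMod n)}
    (hA : (Odd n ∧ #A + 1 = 2 * n) ∨ #A = 2 * n + 1) : Hit A n 0 := by
  classical
  by_contra hno
  have hm40 : 10 ^ 40 ≤ n := by
    have h1 : 1 ≤ (Nat.log 2 n + 1) ^ 12 := Nat.one_le_pow _ _ (by omega)
    calc 10 ^ 40 = 10 ^ 40 * 1 := (mul_one _).symm
      _ ≤ 10 ^ 40 * (Nat.log 2 n + 1) ^ 12 := Nat.mul_le_mul_left _ h1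
      _ ≤ n := hn
  have hn0 : n ≠ 0 := by
    rintro rfl
    norm_num at hm40
  have : NeZero n := ⟨hn0⟩
  obtain ⟨ℓ, M, Λ, k₀, hpar, hℓ, hL⟩ := exists_par (m := n) (n := n) le_rfl hn
  obtain ⟨loss, hloss⟩ : ∃ loss, loss = 2592 * M * ℓ ^ 3 := ⟨_, rfl⟩
  rw [← hloss] at hL
  have hloss1 : 1 ≤ loss := by
    rw [hloss]
    exact Nat.mul_pos (Nat.mul_pos (by norm_num) hpar.hM) (Nat.pow_pos (by omega))
  obtain ⟨B, hB, hBc⟩ := exists_subset_card_eq (show n + (n - 3 * loss) ≤ #A by omega)
  have hcardG : Nat.card (⊤ : AddSubgroup (ZMod n × ZMod n)) = n * n := by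
    rw [AddSubgroup.card_top, Nat.card_prod, Nat.card_zmod]
  obtain ⟨K, H, e, q, S, z, j, o, k, t', Z, u, v, hj1, h⟩ :=
    exists_amj (τ := n - 3 * loss) hpar hcardG hloss (A := B) (fun _ _ => AddSubgroup.mem_top _)
      hBc le_rfl (by omega) (by omega) fun hB' => hno (Hit.mono hB hB')
  have hSB := h.sub
  have hSA : S ⊆ A := hSB.trans hB
  -- the rows of `S`
  have hrow : ∀ i : ℤ, ∀ x ∈ S.filter (fun x => z x = i), x - (q + i • e) ∈ H := by
    intro i x hx
    rw [mem_filter] at hx
    have h1 := h.lift x hx.1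
    rw [hx.2] at h1
    have h2 : x - (q + i • e) = x - q - i • e := by abel
    rw [h2]
    exact h1
  obtain ⟨V, hV⟩ := Int.eq_ofNat_of_zero_le (show 0 ≤ v - u by have := h.uv; omega)
  have hR : #(S.filter (fun x => u ≤ z x ∧ z x ≤ v)) ≤ (V + 1) * Nat.card H := by
    have h1 : #(S.filter (fun x => u ≤ z x ∧ z x ≤ v)) ≤ Nat.card H * #(Icc u v) := by
      refine card_le_mul_card_image_of_maps_to (f := z) ?_ _ ?_
      · intro x hx
        rw [mem_filter] at hx
        exact mem_Icc.2 hx.2
      · intro b _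
        refine card_le_of_coset H (q + b • e) ?_
        intro x hx
        rw [mem_filter, mem_filter] at hx
        exact hrow b x (mem_filter.2 ⟨hx.1.1, hx.2⟩)
    rw [Int.card_Icc] at h1
    have h2 : (v + 1 - u).toNat = V + 1 := by omega
    rw [h2, mul_comm] at h1
    exact h1
  obtain ⟨P, hP⟩ : ∃ P, P = #(S.filter (fun x => ¬ (u ≤ z x ∧ z x ≤ v))) := ⟨_, rfl⟩
  obtain ⟨Q, hQ⟩ : ∃ Q, Q = #(S.filter (fun x => ¬ (u - 1 ≤ z x ∧ z x ≤ v + 1))) := ⟨_, rfl⟩
  have hsum : #S = P + #(S.filter (fun x => u ≤ z x ∧ z x ≤ v)) := by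
    have := card_filter_add_card_filter_not (s := S) (fun x => u ≤ z x ∧ z x ≤ v)
    omega
  have hwin : t' * V + (P + Q) + 2 ≤ o := by
    have h1 : (P : ℤ) + Q ≤ ∑ x ∈ S.filter (fun x => v < z x), (z x - v) +
        ∑ x ∈ S.filter (fun x => z x < u), (u - z x) := by
      rw [hP, hQ, card_filter, card_filter, sum_filter, sum_filter, Nat.cast_sum, Nat.cast_sum,
        ← sum_add_distrib, ← sum_add_distrib]
      refine sum_le_sum fun x _ => ?_
      have := h.uv
      split_ifs <;> push_cast <;> omega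
    have h2 := h.win
    rw [hV] at h2
    have h3 : ((t' * V + (P + Q) + 2 : ℕ) : ℤ) ≤ o := by
      push_cast
      linarith
    exact_mod_cast h3
  have hcard : Nat.card H * (o * j) = n * n := by
    have h1 := h.cardH
    have h2 := h.cardK
    rw [← mul_assoc, h1, h2]
  have hSc := h.hloss
  obtain ⟨hon, hj, hcase⟩ := gt_num h.on (by omega) hcard hj1 h.cardS h.kn (loss := loss)
    (by omega) hsum hR hwin (fun hV0 => by
      have h1 : S.filter (fun x => u ≤ z x ∧ z x ≤ v) = S.filter (fun x => z x = u) :=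
        filter_congr fun x _ => by omega
      rw [h1]
      exact h.row (q + u • e) _ ((filter_subset _ _).trans hSB) (hrow u))
  have hHn : Nat.card H = n := by
    rw [hon, hj, mul_one] at hcard
    exact Nat.eq_of_mul_eq_mul_right (by omega) hcard
  have hKtop : K = ⊤ := by
    have h1 := h.cardK
    rw [hj, mul_one] at h1
    exact AddSubgroup.eq_top_of_card_eq K (by rw [h1, Nat.card_prod, Nat.card_zmod])
  have hord : ∀ a : ℤ, a • e ∈ H ↔ (n : ℤ) ∣ a := by
    intro a
    rw [← QuotientAddGroup.eq_zero_iff, QuotientAddGroup.mk_zsmul,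
      ← addOrderOf_dvd_iff_zsmul_eq_zero, h.order, hon]
  have hgen : ∀ x : ZMod n × ZMod n, ∃ a : ℤ, x - a • e ∈ H := fun x =>
    h.gen x (by rw [hKtop]; exact AddSubgroup.mem_top _)
  have hrle : ∀ i : ℤ, #(S.filter (fun x => z x = i)) ≤ n := fun i =>
    (card_le_of_coset H _ (hrow i)).trans (le_of_eq hHn)
  -- rows of `A`
  have hA0 : ∀ i : ℤ, #(S.filter (fun x => z x = i)) ≤
      #(A.filter (fun x => x - (q + i • e) ∈ H)) := fun i =>
    card_le_card fun x hx => mem_filter.2 ⟨hSA (mem_filter.1 hx).1, hrow i x hx⟩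
  have hA1 : ∀ i : ℤ, #(S.filter (fun x => z x = i + 1)) ≤
      #(A.filter (fun x => x - (q + i • e) - e ∈ H)) := fun i =>
    card_le_card fun x hx => mem_filter.2 ⟨hSA (mem_filter.1 hx).1, by
      have h1 := hrow (i + 1) x hx
      have h2 : x - (q + i • e) - e = x - (q + (i + 1) • e) := by
        rw [add_smul, one_smul]
        abel
      rw [h2]
      exact h1⟩
  have hA2 : ∀ i : ℤ, #(S.filter (fun x => z x = i - 1)) ≤
      #(A.filter (fun x => x - (q + i • e) + e ∈ H)) := fun i =>
    card_le_card fun x hx => mem_filter.2 ⟨hSA (mem_filter.1 hx).1, by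
      have h1 := hrow (i - 1) x hx
      have h2 : x - (q + i • e) + e = x - (q + (i - 1) • e) := by
        rw [sub_smul, one_smul]
        abel
      rw [h2]
      exact h1⟩
  apply hno
  rcases hcase with hV0 | ⟨hV1, hP4⟩
  · -- one main row
    have hvu : v = u := by omega
    have h1 : S.filter (fun x => u ≤ z x ∧ z x ≤ v) = S.filter (fun x => z x = u) :=
      filter_congr fun x _ => by omega
    rw [h1] at hsum
    have h3 : P ≤ #(S.filter (fun x => z x = u + 1)) + #(S.filter (fun x => z x = u - 1)) + Q := by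
      rw [hP, hQ]
      have h4 : S.filter (fun x => ¬ (u ≤ z x ∧ z x ≤ v)) ⊆
          (S.filter (fun x => z x = u + 1) ∪ S.filter (fun x => z x = u - 1)) ∪
            S.filter (fun x => ¬ (u - 1 ≤ z x ∧ z x ≤ v + 1)) := by
        intro x hx
        simp only [mem_union, mem_filter] at hx ⊢
        rcases eq_or_ne (z x) (u + 1) with h5 | h5
        · exact Or.inl (Or.inl ⟨hx.1, h5⟩)
        · rcases eq_or_ne (z x) (u - 1) with h6 | h6
          · exact Or.inl (Or.inr ⟨hx.1, h6⟩)
          · exact Or.inr ⟨hx.1, by omega⟩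
      exact (card_le_card h4).trans ((card_union_le _ _).trans
        (Nat.add_le_add_right (card_union_le _ _) _))
    have hr := hrle u
    have hr1 := hrle (u + 1)
    have hr2 := hrle (u - 1)
    rw [hV0, mul_zero, zero_add, hon] at hwin
    have hS2 : 2 * n ≤ #S + 4 * loss := by omega
    rcases Nat.lt_or_ge (#(S.filter (fun x => z x = u + 1))) (2 * loss + 1) with h₁ | h₁
    · refine two_rows (by omega) n_nsmul H e hHn hord hgen hA (q + (u - 1) • e)
        (E := 16 * loss + 10) ?_ ?_ (by omega)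
      · have := hA0 (u - 1)
        omega
      · have := hA1 (u - 1)
        rw [sub_add_cancel] at this
        omega
    · rcases Nat.lt_or_ge (#(S.filter (fun x => z x = u - 1))) (2 * loss + 1) with h₂ | h₂
      · refine two_rows (by omega) n_nsmul H e hHn hord hgen hA (q + u • e)
          (E := 16 * loss + 10) ?_ ?_ (by omega)
        · have := hA0 u
          omega
        · have := hA1 u
          omega
      · refine three_rows (fun s => by convert four_solutions s) n_nsmul H e hHn (q + u • e)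
          (E := 4 * loss) (L := 2 * loss + 1) ?_ ?_ ?_ ?_ ?_ (by omega) (by omega)
        · have := hA0 u
          omega
        · have := hA1 u
          omega
        · have := hA2 u
          omega
        · intro he
          have h5 := (hord 1).1 (by rw [one_smul]; exact he)
          have h6 := Int.le_of_dvd one_pos h5
          omega
        · intro he
          have h5 := (hord 2).1 (by rw [two_smul]; exact he)
          have h6 := Int.le_of_dvd two_pos h5
          omega
  · -- two main rows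
    have hvu : v = u + 1 := by omega
    have h3 : #(S.filter (fun x => u ≤ z x ∧ z x ≤ v)) ≤
        #(S.filter (fun x => z x = u)) + #(S.filter (fun x => z x = u + 1)) := by
      refine le_trans (card_le_card ?_) (card_union_le _ _)
      intro x hx
      simp only [mem_union, mem_filter] at hx ⊢
      rcases eq_or_ne (z x) u with h5 | h5
      · exact Or.inl ⟨hx.1, h5⟩
      · exact Or.inr ⟨hx.1, by omega⟩
    have hr := hrle u
    have hr1 := hrle (u + 1)
    refine two_rows (by omega) n_nsmul H e hHn hord hgen hA (q + u • e)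
      (E := 16 * loss + 10) ?_ ?_ (by omega)
    · have := hA0 u
      omega
    · have := hA1 u
      omega

end Pool.Agent.Lib.MPa7239a.RS
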