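import Pool.Agent.Lib.MP_a7239a_co.RS.Defs

/-!
# A set with small lifts which is not too small is one-dimensional
-/

open Finset

namespace Pool.Agent.Lib.MPa7239a.RS

open Pool.Agent.Lib.MPa7239a.GC

section ph
variable {n : ℕ} (ξ : ZMod n × ZMod n)

theorem ph_add (u v : ZMod n × ZMod n) : ph ξ (u + v) = ph ξ u + ph ξ v := by
  unfold ph
  rw [Prod.fst_add, Prod.snd_add]
  ring

theorem ph_zero : ph ξ 0 = 0 := by
  unfold ph
  rw [Prod.fst_zero, Prod.snd_zero, mul_zero, mul_zero, add_zero]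

/-- `ph ξ` as a homomorphism -/
def phHom : ZMod n × ZMod n →+ ZMod n := ⟨⟨ph ξ, ph_zero ξ⟩, ph_add ξ⟩

theorem phHom_apply (v : ZMod n × ZMod n) : phHom ξ v = ph ξ v := rfl

theorem ph_neg (v : ZMod n × ZMod n) : ph ξ (-v) = -ph ξ v := map_neg (phHom ξ) v

theorem ph_sub (u v : ZMod n × ZMod n) : ph ξ (u - v) = ph ξ u - ph ξ v := map_sub (phHom ξ) u v

theorem ph_nsmul (k : ℕ) (v : ZMod n × ZMod n) : ph ξ (k • v) = k * ph ξ v := by
  rw [← phHom_apply, map_nsmul, phHom_apply, nsmul_eq_mul]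

theorem ph_zsmul (k : ℤ) (v : ZMod n × ZMod n) : ph ξ (k • v) = k * ph ξ v := by
  rw [← phHom_apply, map_zsmul, phHom_apply, zsmul_eq_mul]

end ph

namespace LineM

/-- a small multiple of `n` is zero -/
theorem eq_zero_of_small {n : ℕ} {x : ℤ} (h : ((x : ℤ) : ZMod n) = 0) (hx : |x| < n) : x = 0 := by
  rw [ZMod.intCast_zmod_eq_zero_iff_dvd] at h
  exact Int.eq_zero_of_abs_lt_dvd h hx

variable {n : ℕ} [NeZero n]

/-- the minors vanish -/
theorem minor {g k P : ℕ} {D : Finset (ZMod n × ZMod n)}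
    {Γ : AddSubgroup (ZMod n × ZMod n)} (hΓ : Nat.card Γ = g) (hD : ∀ v ∈ D, v ∈ Γ)
    {ξ₁ ξ₂ : ZMod n × ZMod n} (hP₁ : ∀ v ∈ D, |(ph ξ₁ v).valMinAbs| ≤ P)
    (hP₂ : ∀ v ∈ D, |(ph ξ₂ v).valMinAbs| ≤ P)
    (hPn : (4 * k + 4) * P < n) (hk : 25 * g < (k + 1) ^ 2 * #D)
    {u w : ZMod n × ZMod n} (hu : u ∈ D) (hw : w ∈ D) :
    (ph ξ₁ u).valMinAbs * (ph ξ₂ w).valMinAbs = (ph ξ₁ w).valMinAbs * (ph ξ₂ u).valMinAbs := by
  classical
  by_contra hne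
  -- maximal determinant
  set a : ZMod n × ZMod n → ℤ := fun v => (ph ξ₁ v).valMinAbs with ha
  set b : ZMod n × ZMod n → ℤ := fun v => (ph ξ₂ v).valMinAbs with hb
  obtain ⟨⟨p, q⟩, hpq, hmax⟩ := exists_max_image (D ×ˢ D)
    (fun r => |a r.1 * b r.2 - a r.2 * b r.1|) ⟨(u, w), mem_product.2 ⟨hu, hw⟩⟩
  rw [mem_product] at hpq
  obtain ⟨hp, hq⟩ := hpq
  dsimp only at hp hq
  set Δ : ℤ := a p * b q - a q * b p with hΔ
  have hΔ0 : 0 < |Δ| := by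
    have h1 := hmax (u, w) (mem_product.2 ⟨hu, hw⟩)
    dsimp only at h1
    refine lt_of_lt_of_le (abs_pos.2 ?_) h1
    intro h
    exact hne (by linarith)
  have h1 : ∀ x ∈ D, |a x * b q - a q * b x| ≤ |Δ| := fun x hx =>
    hmax (x, q) (mem_product.2 ⟨hx, hq⟩)
  have h2 : ∀ x ∈ D, |a p * b x - a x * b p| ≤ |Δ| := fun x hx =>
    hmax (p, x) (mem_product.2 ⟨hp, hx⟩)
  -- the map
  let f : (ℕ × ℕ) × (ZMod n × ZMod n) → ZMod n × ZMod n := fun r => r.1.1 • p + r.1.2 • q + r.2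
  set T := (range (k + 1) ×ˢ range (k + 1)) ×ˢ D with hT
  have hTc : #T = (k + 1) ^ 2 * #D := by
    rw [hT, card_product, card_product, card_range, sq]
  -- relations in `ℤ`
  have hrel : ∀ (c : ZMod n × ZMod n → ℤ) (ξ : ZMod n × ZMod n),
      (∀ v, ((c v : ℤ) : ZMod n) = ph ξ v) → (∀ v ∈ D, |c v| ≤ P) →
      ∀ r ∈ T, ∀ r' ∈ T, f r = f r' →
      ((r.1.1 : ℤ) - r'.1.1) * c p + ((r.1.2 : ℤ) - r'.1.2) * c q + (c r.2 - c r'.2) = 0 := by
    intro c ξ hc hcP r hr r' hr' he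
    rw [hT, mem_product, mem_product, mem_range, mem_range] at hr hr'
    apply eq_zero_of_small (n := n)
    · have h3 : ph ξ (f r) = ph ξ (f r') := by rw [he]
      simp only [f, ph_add, ph_nsmul] at h3
      push_cast
      rw [hc, hc, hc, hc]
      linear_combination h3
    · have hi : |((r.1.1 : ℤ) - r'.1.1)| ≤ k := by rw [abs_le]; constructor <;> omega
      have hj : |((r.1.2 : ℤ) - r'.1.2)| ≤ k := by rw [abs_le]; constructor <;> omega
      have e1 : |((r.1.1 : ℤ) - r'.1.1) * c p| ≤ k * P := by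
        rw [abs_mul]
        exact mul_le_mul hi (hcP p hp) (abs_nonneg _) (by positivity)
      have e2 : |((r.1.2 : ℤ) - r'.1.2) * c q| ≤ k * P := by
        rw [abs_mul]
        exact mul_le_mul hj (hcP q hq) (abs_nonneg _) (by positivity)
      have e3 := hcP r.2 hr.2
      have e4 := hcP r'.2 hr'.2
      have e5 := abs_add_le (((r.1.1 : ℤ) - r'.1.1) * c p + ((r.1.2 : ℤ) - r'.1.2) * c q)
        (c r.2 - c r'.2)
      have e6 := abs_add_le (((r.1.1 : ℤ) - r'.1.1) * c p) (((r.1.2 : ℤ) - r'.1.2) * c q)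
      have e7 := abs_sub (c r.2) (c r'.2)
      have e8 : ((4 * k + 4) * P : ℤ) < n := by exact_mod_cast hPn
      have e9 : (0 : ℤ) ≤ k * P := by positivity
      nlinarith
  have hfib : ∀ y ∈ T.image f, #(T.filter (fun r => f r = y)) ≤ 25 := by
    intro y hy
    obtain ⟨r₀, hr₀, rfl⟩ := mem_image.1 hy
    have hmap : ∀ r ∈ T.filter (fun r => f r = f r₀),
        (fun r : (ℕ × ℕ) × (ZMod n × ZMod n) => ((r.1.1 : ℤ) - r₀.1.1, (r.1.2 : ℤ) - r₀.1.2)) r ∈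
          (Icc (-2 : ℤ) 2) ×ˢ (Icc (-2 : ℤ) 2) := by
      intro r hr
      rw [mem_filter] at hr
      have e1 := hrel a ξ₁ (fun v => ZMod.coe_valMinAbs _) hP₁ r hr.1 r₀ hr₀ hr.2
      have e2 := hrel b ξ₂ (fun v => ZMod.coe_valMinAbs _) hP₂ r hr.1 r₀ hr₀ hr.2
      have hr2 : r.2 ∈ D := (mem_product.1 hr.1).2
      have hr02 : r₀.2 ∈ D := (mem_product.1 hr₀).2
      have e3 : ((r.1.1 : ℤ) - r₀.1.1) * Δ =
          -(a r.2 * b q - a q * b r.2) + (a r₀.2 * b q - a q * b r₀.2) := by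
        rw [hΔ]
        linear_combination b q * e1 - a q * e2
      have e4 : ((r.1.2 : ℤ) - r₀.1.2) * Δ =
          -(a p * b r.2 - a r.2 * b p) + (a p * b r₀.2 - a r₀.2 * b p) := by
        rw [hΔ]
        linear_combination a p * e2 - b p * e1
      have key : ∀ (x A B : ℤ), x * Δ = -A + B → |A| ≤ |Δ| → |B| ≤ |Δ| → x ∈ Icc (-2 : ℤ) 2 := by
        intro x A B hx hA hB
        have h3 : |x| * |Δ| ≤ 2 * |Δ| := by
          rw [← abs_mul, hx]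
          have := abs_add_le (-A) B
          rw [abs_neg] at this
          linarith
        have h4 : |x| ≤ 2 := le_of_mul_le_mul_right h3 hΔ0
        rw [abs_le] at h4
        exact mem_Icc.2 h4
      exact mem_product.2 ⟨key _ _ _ e3 (h1 _ hr2) (h1 _ hr02),
        key _ _ _ e4 (h2 _ hr2) (h2 _ hr02)⟩
    refine (card_le_card_of_injOn _ hmap ?_).trans ?_
    · intro r hr r' hr' he
      have hr1 : r ∈ T.filter (fun r => f r = f r₀) := hr
      have hr1' : r' ∈ T.filter (fun r => f r = f r₀) := hr'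
      rw [mem_filter] at hr1 hr1'
      have e1 := (Prod.ext_iff.1 he).1
      have e2 := (Prod.ext_iff.1 he).2
      dsimp only at e1 e2
      have e3 : r.1.1 = r'.1.1 := by omega
      have e4 : r.1.2 = r'.1.2 := by omega
      have e5 : f r = f r' := by rw [hr1.2, hr1'.2]
      have e6 : r.2 = r'.2 := by
        simp only [f] at e5
        rw [e3, e4] at e5
        exact add_left_cancel e5
      exact Prod.ext (Prod.ext e3 e4) e6
    · rw [card_product]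
      decide
  have h3 := card_le_mul_card_image T 25 hfib
  have h4 : #(T.image f) ≤ g := by
    have hfin : (Γ : Set (ZMod n × ZMod n)).Finite := Set.toFinite _
    have h5 : T.image f ⊆ hfin.toFinset := by
      intro y hy
      obtain ⟨r, hr, rfl⟩ := mem_image.1 hy
      rw [Set.Finite.mem_toFinset]
      exact Γ.add_mem (Γ.add_mem (Γ.nsmul_mem (hD p hp) _) (Γ.nsmul_mem (hD q hq) _))
        (hD _ (mem_product.1 hr).2)
    refine (card_le_card h5).trans (le_of_eq ?_)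
    rw [← hΓ, ← Set.ncard_eq_toFinset_card _ hfin]
    exact (Nat.card_coe_set_eq (Γ : Set (ZMod n × ZMod n))).symm
  rw [hTc] at h3
  have := Nat.mul_le_mul_left 25 h4
  omega

end LineM

open LineM in
/-- **the lifts are on one line** -/
theorem line {n g k P : ℕ} [NeZero n] {D : Finset (ZMod n × ZMod n)}
    {Γ : AddSubgroup (ZMod n × ZMod n)} (hΓ : Nat.card Γ = g) (hD : ∀ v ∈ D, v ∈ Γ)
    (Ξ : Set (ZMod n × ZMod n)) (hP : ∀ v ∈ D, ∀ ξ ∈ Ξ, (ph ξ v).valMinAbs.natAbs ≤ P)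
    (hPn : (4 * k + 4) * P < n) (hk : 25 * g < (k + 1) ^ 2 * #D) :
    ∃ (e : ZMod n × ZMod n) (v₀ : ZMod n × ZMod n → ℤ),
      e ∈ AddSubgroup.closure (D : Set (ZMod n × ZMod n)) ∧ (∀ ξ ∈ Ξ, ph ξ e = (v₀ ξ : ZMod n)) ∧
      ∀ v ∈ D, ∃ z : ℤ, ∀ ξ ∈ Ξ, (ph ξ v).valMinAbs = z * v₀ ξ := by
  classical
  have hP' : ∀ ξ ∈ Ξ, ∀ v ∈ D, |(ph ξ v).valMinAbs| ≤ P := by
    intro ξ hξ v hv
    rw [Int.abs_eq_natAbs]
    exact_mod_cast hP v hv ξ hξ
  by_cases hz : ∀ v ∈ D, ∀ ξ ∈ Ξ, (ph ξ v).valMinAbs = 0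
  · refine ⟨0, 0, AddSubgroup.zero_mem _, fun ξ _ => ?_, fun v hv => ⟨0, fun ξ hξ => ?_⟩⟩
    · rw [ph_zero, Pi.zero_apply, Int.cast_zero]
    · rw [hz v hv ξ hξ, zero_mul]
  push Not at hz
  obtain ⟨v₁, hv₁, ξ₁, hξ₁, hne⟩ := hz
  set a : ZMod n × ZMod n → ZMod n × ZMod n → ℤ := fun v ξ => (ph ξ v).valMinAbs with ha
  set L : AddSubgroup ((ZMod n × ZMod n) × (ZMod n × ZMod n → ℤ)) :=
    AddSubgroup.closure {p | ∃ v ∈ D, p = (v, a v)} with hL
  have hLp : ∀ p ∈ L, p.1 ∈ AddSubgroup.closure (D : Set (ZMod n × ZMod n)) ∧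
      (∀ ξ ∈ Ξ, ph ξ p.1 = (p.2 ξ : ZMod n)) ∧
      ∀ ξ ∈ Ξ, p.2 ξ * a v₁ ξ₁ = p.2 ξ₁ * a v₁ ξ := by
    intro p hp
    induction hp using AddSubgroup.closure_induction with
    | mem p hp =>
      obtain ⟨v, hv, rfl⟩ := hp
      refine ⟨AddSubgroup.subset_closure hv, fun ξ _ => ?_, fun ξ hξ => ?_⟩
      · exact (ZMod.coe_valMinAbs _).symm
      · have := minor hΓ hD (hP' ξ₁ hξ₁) (hP' ξ hξ) hPn hk hv hv₁
        dsimp only [a]
        linarith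
    | zero =>
      refine ⟨AddSubgroup.zero_mem _, fun ξ _ => ?_, fun ξ _ => ?_⟩
      · rw [Prod.fst_zero, Prod.snd_zero, ph_zero, Pi.zero_apply, Int.cast_zero]
      · rw [Prod.snd_zero, Pi.zero_apply, Pi.zero_apply, zero_mul, zero_mul]
    | add x y _ _ hx hy =>
      refine ⟨AddSubgroup.add_mem _ hx.1 hy.1, fun ξ hξ => ?_, fun ξ hξ => ?_⟩
      · rw [Prod.fst_add, Prod.snd_add, ph_add, hx.2.1 ξ hξ, hy.2.1 ξ hξ, Pi.add_apply,
          Int.cast_add]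
      · rw [Prod.snd_add, Pi.add_apply, Pi.add_apply]
        linear_combination hx.2.2 ξ hξ + hy.2.2 ξ hξ
    | neg x _ hx =>
      refine ⟨AddSubgroup.neg_mem _ hx.1, fun ξ hξ => ?_, fun ξ hξ => ?_⟩
      · rw [Prod.fst_neg, Prod.snd_neg, ph_neg, hx.2.1 ξ hξ, Pi.neg_apply, Int.cast_neg]
      · rw [Prod.snd_neg, Pi.neg_apply, Pi.neg_apply]
        linear_combination -hx.2.2 ξ hξ
  let π : (ZMod n × ZMod n) × (ZMod n × ZMod n → ℤ) →+ ℤ :=
    (Pi.evalAddMonoidHom (fun _ : ZMod n × ZMod n => ℤ) ξ₁).comp (AddMonoidHom.snd _ _)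
  obtain ⟨d, hd⟩ := Int.subgroup_cyclic (L.map π)
  have hdm : d ∈ L.map π := by
    rw [hd]
    exact AddSubgroup.subset_closure rfl
  obtain ⟨p₀, hp₀, hp₀d⟩ := AddSubgroup.mem_map.1 hdm
  have hp₀d' : p₀.2 ξ₁ = d := hp₀d
  refine ⟨p₀.1, p₀.2, (hLp p₀ hp₀).1, (hLp p₀ hp₀).2.1, fun v hv => ?_⟩
  have hvL : (v, a v) ∈ L := AddSubgroup.subset_closure ⟨v, hv, rfl⟩
  have hav : a v ξ₁ ∈ L.map π := AddSubgroup.mem_map.2 ⟨(v, a v), hvL, rfl⟩
  rw [hd, AddSubgroup.mem_closure_singleton] at hav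
  obtain ⟨z, hz⟩ := hav
  refine ⟨z, fun ξ hξ => ?_⟩
  have e1 := (hLp _ hvL).2.2 ξ hξ
  have e2 := (hLp p₀ hp₀).2.2 ξ hξ
  dsimp only at e1
  rw [smul_eq_mul] at hz
  have hne' : a v₁ ξ₁ ≠ 0 := hne
  apply mul_right_cancel₀ hne'
  change a v ξ * a v₁ ξ₁ = z * p₀.2 ξ * a v₁ ξ₁
  rw [e1, ← hz, ← hp₀d', mul_assoc z (p₀.2 ξ), e2, mul_assoc]

end Pool.Agent.Lib.MPa7239a.RS
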