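import Pool.Agent.Lib.MP_a7239a_co.RS.Defs
import Pool.Agent.Lib.MP_a7239a_co.GC.SEL

/-!
# The window inequality, with a filler of an interval
-/

open Finset

namespace Pool.Agent.Lib.MPa7239a.RS

open Pool.Agent.Lib.MPa7239a.GC

/-- MODULE WINA -/
theorem window_of {G : Type*} [AddCommGroup G] [DecidableEq G] {H : AddSubgroup G} {e q : G}
    {A S R : Finset G} {z : G → ℤ} {n o r k Z : ℕ} {c₀ : G} (hS : S ⊆ A) (hR : R ⊆ A)
    (hSR : Disjoint S R) (hnq : n • q = 0) (hlift : ∀ x ∈ S, x - q - z x • e ∈ H)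
    (hz : ∀ x ∈ S, |z x| ≤ Z) (ho : 0 < o) (hoe : o • e ∈ H)
    (hgen : ∀ x ∈ R, ∃ a : ℤ, x - q - a • e ∈ H) (hk : k + r = n)
    (hfill : ∀ a : ℤ, |a| ≤ 4 * Z → ∀ h ∈ H, Hit R r (c₀ + a • e + h)) {U₁ U₂ : Finset G}
    (hU₁ : U₁ ⊆ S) (hU₂ : U₂ ⊆ S) (hc₁ : #U₁ = k) (hc₂ : #U₂ = k)
    (hwin : ∑ x ∈ U₁, z x + o ≤ ∑ x ∈ U₂, z x + 1) : Hit A n 0 := by
  -- the class of `c₀`
  obtain ⟨a₀, ha₀⟩ : ∃ a₀ : ℤ, c₀ - r • q - a₀ • e ∈ H := by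
    obtain ⟨T, hT, hTc, hTs⟩ := hfill 0 (by simp) 0 H.zero_mem
    obtain ⟨a, ha⟩ := sum_mod hgen T hT
    rw [hTs, hTc, zero_smul, add_zero, add_zero] at ha
    exact ⟨a, ha⟩
  -- a target in the window
  obtain ⟨τ, j, hτ₁, hτ₂, hj⟩ : ∃ τ j : ℤ, ∑ x ∈ U₁, z x ≤ τ ∧ τ ≤ ∑ x ∈ U₂, z x ∧
      τ + a₀ = o * j := by
    have hoz : (0 : ℤ) < o := by exact_mod_cast ho
    set s : ℤ := ∑ x ∈ U₁, z x
    have h1 := Int.emod_nonneg (-(s + a₀)) hoz.ne'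
    have h2 := Int.emod_lt_of_pos (-(s + a₀)) hoz
    have h3 := Int.mul_ediv_add_emod (-(s + a₀)) o
    refine ⟨s + (-(s + a₀)) % o, -((-(s + a₀)) / o), by omega, by omega, ?_⟩
    linarith
  obtain ⟨U, hU, hUc, h1, h2⟩ := path z hz hU₁ hU₂ hc₁ hc₂ hτ₁ hτ₂
  have h3 := sum_S z hlift U hU
  rw [hUc] at h3
  set a : ℤ := τ - ∑ x ∈ U, z x with ha
  have hab : |a| ≤ 4 * Z := by
    rw [abs_le]
    constructor <;> omega
  -- the element of `H`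
  set h : G := -((∑ x ∈ U, x - k • q - (∑ x ∈ U, z x) • e) + (c₀ - r • q - a₀ • e) + j • (o • e))
    with hh
  have hhH : h ∈ H := H.neg_mem (H.add_mem (H.add_mem h3 ha₀) (H.zsmul_mem hoe j))
  obtain ⟨T, hT, hTc, hTs⟩ := hfill a hab h hhH
  have hd : Disjoint U T := disjoint_of_subset_left hU (disjoint_of_subset_right hT hSR)
  refine ⟨U ∪ T, union_subset (hU.trans hS) (hT.trans hR), ?_, ?_⟩
  · rw [card_union_of_disjoint hd, hUc, hTc, hk]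
  · rw [sum_union hd, hTs, hh, ha]
    have h4 : j • (o • e) = (τ + a₀) • e := by
      rw [hj, mul_comm, mul_smul, natCast_zsmul]
    have h5 : k • q + r • q = 0 := by
      rw [← add_smul, hk, hnq]
    rw [h4, sub_smul, add_smul]
    have h6 : ∑ x ∈ U, x + (c₀ + (τ • e - (∑ x ∈ U, z x) • e) +
        -((∑ x ∈ U, x - k • q - (∑ x ∈ U, z x) • e) + (c₀ - r • q - a₀ • e) +
          (τ • e + a₀ • e))) = k • q + r • q := by
      abel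
    rw [h6, h5]

end Pool.Agent.Lib.MPa7239a.RS
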