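import Pool.Agent.Lib.MP_a7239a_co.RS.ROWL
import Pool.Agent.Lib.MP_a7239a_co.RS.WINA
import Pool.Agent.Lib.MP_a7239a_co.RK.WIN2
import Pool.Agent.Lib.MP_a7239a_co.GC.MainB

/-!
# The structure of a set without zero-sum subsets of `n` elements, in a minimal coset
-/

open Finset

namespace Pool.Agent.Lib.MPa7239a.RS

open Pool.Agent.Lib.MPa7239a.GC

namespace MinkM

/-- a filled subgroup gives a hit -/
theorem hit_of_full {G : Type*} [AddCommGroup G] [DecidableEq G] {K : AddSubgroup G} {x₀ c₀ : G}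
    {A S R : Finset G} {n r : ℕ} (hS : S ⊆ A) (hR : R ⊆ A) (hSR : Disjoint S R)
    (hnx : n • x₀ = 0) (hSK : ∀ x ∈ S, x - x₀ ∈ K) (hRK : ∀ x ∈ R, x - x₀ ∈ K)
    (hfill : ∀ g ∈ K, Hit R r (c₀ + g)) (hr : r ≤ n) (hn : n - r ≤ #S) : Hit A n 0 := by
  have hsum : ∀ T : Finset G, (∀ x ∈ T, x - x₀ ∈ K) → ∑ x ∈ T, x - #T • x₀ ∈ K := by
    intro T hT
    have h1 : ∑ x ∈ T, x - #T • x₀ = ∑ x ∈ T, (x - x₀) := by
      rw [sum_sub_distrib, sum_const]
    rw [h1]
    exact sum_mem hT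
  obtain ⟨U, hU, hUc⟩ := exists_subset_card_eq hn
  obtain ⟨T₀, hT₀, hT₀c, hT₀s⟩ := hfill 0 K.zero_mem
  have h1 := hsum T₀ (fun x hx => hRK x (hT₀ hx))
  have h2 := hsum U (fun x hx => hSK x (hU hx))
  rw [hT₀s, hT₀c, add_zero] at h1
  rw [hUc] at h2
  have h3 : c₀ + ∑ x ∈ U, x ∈ K := by
    have h4 := K.add_mem h1 h2
    have h5 : r • x₀ + (n - r) • x₀ = 0 := by
      rw [← add_smul, Nat.add_sub_cancel' hr, hnx]
    have h6 : c₀ - r • x₀ + (∑ x ∈ U, x - (n - r) • x₀) =
        c₀ + ∑ x ∈ U, x - (r • x₀ + (n - r) • x₀) := by abel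
    rwa [h6, h5, sub_zero] at h4
  obtain ⟨T, hT, hTc, hTs⟩ := hfill _ (K.neg_mem h3)
  have hd : Disjoint U T := disjoint_of_subset_left hU (disjoint_of_subset_right hT hSR)
  refine ⟨U ∪ T, union_subset (hU.trans hS) (hT.trans hR), ?_, ?_⟩
  · rw [card_union_of_disjoint hd, hUc, hTc]
    omega
  · rw [sum_union hd, hTs]
    abel

theorem card_mul_order {G : Type*} [AddCommGroup G] [Finite G] {K H : AddSubgroup G} {e : G}
    (hHK : H ≤ K) (he : e ∈ K) (hgen : ∀ x ∈ K, ∃ a : ℤ, x - a • e ∈ H) :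
    Nat.card H * addOrderOf (e : G ⧸ H) = Nat.card K := by
  have h1 : K = H ⊔ AddSubgroup.zmultiples e := by
    apply le_antisymm
    · intro x hx
      obtain ⟨a, ha⟩ := hgen x hx
      have h2 : x = (x - a • e) + a • e := by abel
      rw [h2]
      exact AddSubgroup.add_mem _ (AddSubgroup.mem_sup_left ha)
        (AddSubgroup.mem_sup_right (AddSubgroup.zsmul_mem_zmultiples e a))
    · refine sup_le hHK ?_
      rw [AddSubgroup.zmultiples_le]
      exact he
  have h2 := index_eq H e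
  rw [← h1] at h2
  have h3 := AddSubgroup.card_mul_index H
  have h4 := AddSubgroup.card_mul_index K
  have h5 : 0 < K.index := Nat.pos_of_ne_zero AddSubgroup.index_ne_zero_of_finite
  rw [h2, ← h4, ← mul_assoc] at h3
  exact Nat.eq_of_mul_eq_mul_right h5 h3

end MinkM

open MinkM in
/-- **the structure in a minimal coset** -/
theorem exists_amj {m n ℓ M Λ k₀ c τ loss : ℕ} [NeZero n] (hpar : Par m n ℓ M Λ k₀)
    {Γ : AddSubgroup (ZMod n × ZMod n)} (hΓ : Nat.card Γ = m * n)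
    (hloss : loss = 2592 * M * ℓ ^ 3) {A : Finset (ZMod n × ZMod n)} (hA : ∀ x ∈ A, x ∈ Γ)
    (hc : #A = n + c) (hτ : τ ≤ c) (hτ₁ : 1 + loss ≤ τ) (hcn : c + 3 * loss ≤ n)
    (hno : ¬ Hit A n 0) :
    ∃ (K H : AddSubgroup (ZMod n × ZMod n)) (e q : ZMod n × ZMod n)
      (S : Finset (ZMod n × ZMod n)) (z : ZMod n × ZMod n → ℤ) (j o k t' Z : ℕ) (u v : ℤ),
      1 ≤ j ∧ Amj Γ K H e q A S z m n c j o τ loss k t' Z u v := by
  classical
  have hpar' := hpar
  obtain ⟨hℓ, hb, hM, hmn, hΛ, hk₁, hk₂, hΛ₂, hM₂⟩ := hpar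
  have hn : 0 < n := Nat.pos_of_ne_zero (NeZero.ne n)
  have hn0 : ∀ x : ZMod n × ZMod n, n • x = 0 := by
    intro x
    refine Prod.ext ?_ ?_
    · rw [Prod.smul_fst, nsmul_eq_mul, ZMod.natCast_self, zero_mul]; rfl
    · rw [Prod.smul_snd, nsmul_eq_mul, ZMod.natCast_self, zero_mul]; rfl
  -- numbers
  have hℓ1 : 1 ≤ ℓ := by
    rcases Nat.eq_zero_or_pos ℓ with h | h
    · rw [h, pow_zero] at hℓ
      omega
    · exact h
  set lam := 288 * M * ℓ ^ 2 with hlam
  have hloss' : loss = 9 * ℓ * lam := by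
    rw [hloss, hlam]
    ring
  have hlam1 : 1 ≤ lam := by
    rw [hlam]
    exact Nat.one_le_iff_ne_zero.2 (by positivity)
  have hm1 : 1 ≤ m := by
    have h1 : 1 ≤ M * ℓ ^ 3 := Nat.one_le_iff_ne_zero.2 (by positivity)
    nlinarith
  have hlogΓ : Nat.log 2 (Nat.card Γ) + 1 ≤ 2 * ℓ := by
    have h1 : Nat.card Γ < 2 ^ (2 * ℓ) := by
      rw [hΓ, pow_mul, pow_right_comm]
      calc m * n ≤ n * n := Nat.mul_le_mul_right _ hmn
        _ = n ^ 2 := (sq n).symm
        _ < (2 ^ ℓ) ^ 2 := Nat.pow_lt_pow_left hℓ (by omega)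
    have h2 := Nat.log_lt_of_lt_pow (by rw [hΓ]; positivity) h1
    omega
  -- the minimal subgroup
  let C : AddSubgroup (ZMod n × ZMod n) → (ZMod n × ZMod n) → Prop := fun K x₀ =>
    K ≤ Γ ∧ n + τ ≤ #(A.filter (fun x => x - x₀ ∈ K)) +
      4 * lam * (Nat.log 2 (Nat.card Γ) - Nat.log 2 (Nat.card K))
  have hex : ∃ N, ∃ (K : AddSubgroup (ZMod n × ZMod n)) (x₀ : ZMod n × ZMod n),
      Nat.card K = N ∧ C K x₀ := by
    refine ⟨_, Γ, 0, rfl, le_rfl, ?_⟩
    have h1 : A.filter (fun x => x - 0 ∈ Γ) = A := by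
      rw [filter_eq_self]
      intro x hx
      rw [sub_zero]
      exact hA x hx
    rw [h1, hc]
    omega
  obtain ⟨K, x₀, hKN, hKΓ, hKc⟩ := Nat.find_spec hex
  have hmin : ∀ (K' : AddSubgroup (ZMod n × ZMod n)) (y : ZMod n × ZMod n),
      Nat.card K' < Nat.card K → ¬ C K' y := by
    intro K' y hlt hC
    rw [hKN] at hlt
    exact Nat.find_min hex hlt ⟨K', y, rfl, hC⟩
  set X := A.filter (fun x => x - x₀ ∈ K) with hX
  have hXA : X ⊆ A := filter_subset _ _
  have hXc : n + τ + 4 * lam ≤ #X + 8 * ℓ * lam := by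
    have h1 : 4 * lam * (Nat.log 2 (Nat.card Γ) - Nat.log 2 (Nat.card K)) + 4 * lam ≤
        8 * ℓ * lam := by
      calc 4 * lam * (Nat.log 2 (Nat.card Γ) - Nat.log 2 (Nat.card K)) + 4 * lam
          = 4 * lam * (Nat.log 2 (Nat.card Γ) - Nat.log 2 (Nat.card K) + 1) := by ring
        _ ≤ 4 * lam * (2 * ℓ) := Nat.mul_le_mul_left _ (by omega)
        _ = 8 * ℓ * lam := by ring
    omega
  have hℓlam : lam ≤ ℓ * lam := Nat.le_mul_of_pos_left _ hℓ1
  have h9 : 9 * ℓ * lam = 8 * ℓ * lam + ℓ * lam := by ring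
  have hXn : n ≤ #X := by omega
  obtain ⟨S, hSX, R, hRX, hSR, hXS, hRc, hmain⟩ :=
    struct_or_full hpar' hΓ (X := X) (fun x hx => hA x (hXA hx)) hXn
  have hXK : ∀ x ∈ X, x - x₀ ∈ K := fun x hx => (mem_filter.1 hx).2
  have hSne : S.Nonempty := by
    rw [← card_pos]
    omega
  -- the closure is `K`
  have hDK : AddSubgroup.closure (Df S : Set (ZMod n × ZMod n)) ≤ K := by
    rw [AddSubgroup.closure_le]
    intro v hv
    obtain ⟨⟨x, y⟩, hp, rfl⟩ := mem_image.1 (mem_coe.1 hv)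
    rw [mem_product] at hp
    have h1 := K.sub_mem (hXK y (hSX hp.2)) (hXK x (hSX hp.1))
    have h2 : y - x₀ - (x - x₀) = y - x := by abel
    rw [h2] at h1
    exact h1
  have hKeq : AddSubgroup.closure (Df S : Set (ZMod n × ZMod n)) = K := by
    by_contra hne
    have hlt : AddSubgroup.closure (Df S : Set (ZMod n × ZMod n)) < K := lt_of_le_of_ne hDK hne
    set K' := AddSubgroup.closure (Df S : Set (ZMod n × ZMod n)) with hK'
    obtain ⟨s, hs⟩ := hSne
    have h1 : S ⊆ A.filter (fun x => x - s ∈ K') := by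
      intro x hx
      rw [mem_filter]
      refine ⟨hXA (hSX hx), AddSubgroup.subset_closure ?_⟩
      exact mem_coe.2 (mem_image.2 ⟨(s, x), mem_product.2 ⟨hs, hx⟩, rfl⟩)
    have h2 := card_le_card h1
    have h3 : Nat.log 2 (Nat.card K') + 1 ≤ Nat.log 2 (Nat.card K) := by
      refine log_two_mul_le Nat.card_pos ?_
      have e1 := AddSubgroup.card_mul_index K'
      have e2 := AddSubgroup.card_mul_index K
      have e3 := index_le_of_lt hlt
      have e4 : 0 < K.index := Nat.pos_of_ne_zero AddSubgroup.index_ne_zero_of_finite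
      have e5 : Nat.card K' * (2 * K.index) ≤ Nat.card K' * K'.index := Nat.mul_le_mul_left _ e3
      rw [e1, ← e2] at e5
      have e6 : (2 * Nat.card K') * K.index ≤ Nat.card K * K.index := by
        calc (2 * Nat.card K') * K.index = Nat.card K' * (2 * K.index) := by ring
          _ ≤ _ := e5
      exact le_of_mul_le_mul_right e6 e4
    refine hmin K' s (card_lt_of_lt hlt) ⟨hDK.trans hKΓ, ?_⟩
    have h4 : Nat.log 2 (Nat.card K) ≤ Nat.log 2 (Nat.card Γ) :=
      Nat.log_mono_right (Nat.card_mono (Set.toFinite _) hKΓ)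
    have h5 : 4 * lam * (Nat.log 2 (Nat.card Γ) - Nat.log 2 (Nat.card K)) + 4 * lam ≤
        4 * lam * (Nat.log 2 (Nat.card Γ) - Nat.log 2 (Nat.card K')) := by
      calc 4 * lam * (Nat.log 2 (Nat.card Γ) - Nat.log 2 (Nat.card K)) + 4 * lam
          = 4 * lam * (Nat.log 2 (Nat.card Γ) - Nat.log 2 (Nat.card K) + 1) := by ring
        _ ≤ _ := Nat.mul_le_mul_left _ (by omega)
    omega
  rw [hKeq] at hmain
  rcases hmain with ⟨r, c₀, hfull⟩ | ⟨-, H, e, q, z, Z, hHK, heK, hgen, hqS, hlift, hz, hZ1, hZo,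
    r, c₀, hfill⟩
  · exfalso
    obtain ⟨T, hT, hTc, -⟩ := hfull 0 K.zero_mem
    have hr : r ≤ #R := by
      rw [← hTc]
      exact card_le_card hT
    refine hno (hit_of_full (hSX.trans hXA) (hRX.trans hXA) hSR (hn0 x₀)
      (fun x hx => hXK x (hSX hx)) (fun x hx => hXK x (hRX hx)) hfull ?_ ?_) <;> omega
  -- the main case
  have hcardH := card_mul_order hHK heK hgen
  set o := addOrderOf (e : (ZMod n × ZMod n) ⧸ H) with ho
  have ho0 : 0 < o := addOrderOf_pos _
  have hoe : o • e ∈ H := by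
    rw [← QuotientAddGroup.eq_zero_iff, QuotientAddGroup.mk_nsmul]
    exact addOrderOf_nsmul_eq_zero _
  have hon : o ∣ n := by
    apply addOrderOf_dvd_of_nsmul_eq_zero
    rw [← QuotientAddGroup.mk_nsmul, hn0]
    rfl
  have hrR : r ≤ #R := by
    obtain ⟨T, hT, hTc, -⟩ := hfill 0 (by simp) 0 H.zero_mem
    rw [← hTc]
    exact card_le_card hT
  have hqX := hSX hqS
  -- the index
  obtain ⟨j, hj⟩ : Nat.card K ∣ m * n := by
    rw [← hΓ]
    exact AddSubgroup.card_dvd_of_le hKΓ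
  have hj1 : 1 ≤ j := by
    rcases Nat.eq_zero_or_pos j with h | h
    · rw [h, mul_zero] at hj
      have : 0 < m * n := Nat.mul_pos hm1 hn
      omega
    · exact h
  -- the window
  set k := n - r with hk
  have hkr : k + r = n := by omega
  have hSA : #S ≤ n + c := by
    rw [← hc]
    exact card_le_card (hSX.trans hXA)
  set t' := #S - k with ht'
  have hSc : #S = k + t' := by omega
  have ht1 : 1 ≤ t' := by omega
  have htk : t' ≤ k := by omega
  obtain ⟨u, v, huv, hu, hv, U₁, hU₁, U₂, hU₂, hc₁, hc₂, hwin⟩ :=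
    RK.window2 S z ht1 htk hSc
  have hgenR : ∀ x ∈ R, ∃ a : ℤ, x - q - a • e ∈ H := by
    intro x hx
    refine hgen (x - q) ?_
    have h1 := K.sub_mem (hXK x (hRX hx)) (hXK q hqX)
    have h2 : x - x₀ - (q - x₀) = x - q := by abel
    rwa [h2] at h1
  have hwin' : ¬ (∑ x ∈ U₁, z x + o ≤ ∑ x ∈ U₂, z x + 1) := fun h =>
    hno (window_of (hSX.trans hXA) (hRX.trans hXA) hSR (hn0 q) hlift hz ho0 hoe hgenR hkr hfill
      hU₁ hU₂ hc₁ hc₂ h)
  -- small
  have hΛ9 : 9 ≤ Λ := by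
    by_contra hlt
    push Not at hlt
    have h1 : Λ * M ≤ 8 * M := Nat.mul_le_mul_right _ (by omega)
    have h2 : M ≤ M * ℓ ^ 3 := Nat.le_mul_of_pos_right _ (by positivity)
    nlinarith
  have hsmall : 1000 * Z ≤ o := by
    have h1 : 28 * Λ ^ 2 * (4 * Z) ≤ M * (4 * Z) := Nat.mul_le_mul_right _ hΛ₂
    have h2 : Λ * (112 * Λ * Z) ≤ Λ * o := by
      calc Λ * (112 * Λ * Z) = 28 * Λ ^ 2 * (4 * Z) := by ring
        _ ≤ M * (4 * Z) := h1
        _ = 4 * M * Z := by ring
        _ ≤ Λ * o := hZo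
    have h3 : 112 * Λ * Z ≤ o := le_of_mul_le_mul_left h2 (by omega)
    have h4 : 112 * 9 * Z ≤ 112 * Λ * Z := Nat.mul_le_mul_right _ (Nat.mul_le_mul_left _ hΛ9)
    omega
  -- rows
  have hHM : 3 * Nat.card H ≤ M * n := by
    have h1 : 4 * M ≤ Λ * o := by
      refine le_trans ?_ hZo
      exact Nat.le_mul_of_pos_right _ hZ1
    have h2 : Nat.card K ≤ m * n := Nat.le_of_dvd (Nat.mul_pos hm1 hn) ⟨j, hj⟩
    have h3 : 4 * M * Nat.card H ≤ Λ * (m * n) := by
      calc 4 * M * Nat.card H ≤ Λ * o * Nat.card H := Nat.mul_le_mul_right _ h1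
        _ = Λ * (Nat.card H * o) := by ring
        _ ≤ Λ * (m * n) := by rw [hcardH]; exact Nat.mul_le_mul_left _ h2
    have h4 : M * (12 * Nat.card H) ≤ M * (Λ ^ 2 * n) := by
      calc M * (12 * Nat.card H) = 3 * (4 * M * Nat.card H) := by ring
        _ ≤ 3 * (Λ * (m * n)) := Nat.mul_le_mul_left _ h3
        _ = Λ * n * (3 * m) := by ring
        _ ≤ Λ * n * (Λ * M) := Nat.mul_le_mul_left _ hΛ
        _ = M * (Λ ^ 2 * n) := by ring
    have h5 : 12 * Nat.card H ≤ Λ ^ 2 * n := le_of_mul_le_mul_left h4 hM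
    have h6 : 28 * Λ ^ 2 * n ≤ M * n := Nat.mul_le_mul_right _ hΛ₂
    nlinarith
  have hrow : (2 * ℓ + 1) * lam ≤ loss := by
    rw [hloss']
    exact Nat.mul_le_mul_right _ (by omega)
  refine ⟨K, H, e, q, S, z, j, o, k, t', Z, u, v, hj1, ?_⟩
  exact
    { card := hc
      inΓ := hA
      cardΓ := hΓ
      HK := hHK
      KΓ := hKΓ
      cardK := hj.symm
      cardH := hcardH
      order := rfl
      on := hon
      eK := heK
      gen := hgen
      qS := hqS
      sub := hSX.trans hXA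
      lift := hlift
      bound := hz
      small := hsmall
      hloss := by omega
      inK := by
        intro B hB hBK
        have h1 : B ⊆ X := by
          intro x hx
          rw [hX, mem_filter]
          refine ⟨hB hx, ?_⟩
          have h2 := K.add_mem (hBK x hx) (hXK q hqX)
          have h3 : x - q + (q - x₀) = x - x₀ := by abel
          rwa [h3] at h2
        have h2 := card_le_card h1
        omega
      cardS := hSc
      kn := by omega
      nk := by omega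
      tk := htk
      uv := huv
      hu := hu
      hv := hv
      win := by
        push Not at hwin'
        linarith
      row := by
        intro y B hB hBH
        exact lt_of_lt_of_le (row_lemma hpar' hΓ hA hno H hHM y hB hBH)
          (Nat.add_le_add_left hrow n)
      low := by
        intro K' hK' hlt y B hB hBK
        by_contra hcon
        push Not at hcon
        refine hmin K' y hlt ⟨hK', ?_⟩
        have h1 : B ⊆ A.filter (fun x => x - y ∈ K') := by
          intro x hx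
          rw [mem_filter]
          exact ⟨hB hx, hBK x hx⟩
        have h2 := card_le_card h1
        omega }

end Pool.Agent.Lib.MPa7239a.RS
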