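import Pool.Agent.Lib.MP_a7239a_co.RS.Defs

/-!
# Growth by popular differences
-/

open Finset

namespace Pool.Agent.Lib.MPa7239a.RS

open Pool.Agent.Lib.MPa7239a.GC

namespace PopM

theorem hit_union {G : Type*} [AddCommGroup G] [DecidableEq G] {R₁ R₂ T₂ : Finset G}
    (hd : Disjoint R₁ R₂) {r₁ : ℕ} {x₁ : G} (h₁ : Hit R₁ r₁ x₁) (h₂ : T₂ ⊆ R₂) :
    Hit (R₁ ∪ R₂) (r₁ + #T₂) (x₁ + ∑ x ∈ T₂, x) := by
  obtain ⟨T₁, hT₁, hc₁, hs₁⟩ := h₁
  have hd' : Disjoint T₁ T₂ := Finset.disjoint_of_subset_left hT₁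
    (Finset.disjoint_of_subset_right h₂ hd)
  refine ⟨T₁ ∪ T₂, union_subset_union hT₁ h₂, ?_, ?_⟩
  · rw [card_union_of_disjoint hd', hc₁]
  · rw [sum_union hd', hs₁]

/-- `2 N ^ N ≤ (N + 1) ^ N` -/
theorem two_mul_pow_le {N : ℕ} (hN : 1 ≤ N) : 2 * N ^ N ≤ (N + 1) ^ N := by
  obtain ⟨K, rfl⟩ : ∃ K, N = K + 1 := ⟨N - 1, by omega⟩
  have key : ∀ j : ℕ, (K + 1) ^ (j + 1) + (j + 1) * (K + 1) ^ j ≤ (K + 1 + 1) ^ (j + 1) := by
    intro j
    induction j with
    | zero => simp
    | succ j ih =>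
      have h1 : (K + 1 + 1) ^ (j + 1 + 1) = (K + 1 + 1) * (K + 1 + 1) ^ (j + 1) := by ring
      rw [h1]
      have h2 : (K + 1 + 1) * ((K + 1) ^ (j + 1) + (j + 1) * (K + 1) ^ j) ≤
          (K + 1 + 1) * (K + 1 + 1) ^ (j + 1) := Nat.mul_le_mul_left _ ih
      refine le_trans ?_ h2
      have h3 : (K + 1) ^ (j + 1 + 1) + (j + 1 + 1) * (K + 1) ^ (j + 1) + (j + 1) * (K + 1) ^ j =
          (K + 1 + 1) * ((K + 1) ^ (j + 1) + (j + 1) * (K + 1) ^ j) := by ring
      rw [← h3]
      exact Nat.le_add_right _ _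
  have h := key K
  have h1 : (K + 1) * (K + 1) ^ K = (K + 1) ^ (K + 1) := by ring
  rw [h1] at h
  omega

end PopM

open PopM in
/-- **growth by popular differences** -/
theorem exists_pop {G : Type*} [AddCommGroup G] [Fintype G] [DecidableEq G] {X S : Finset G}
    {w b : ℕ} {V : ℕ → Finset G} (hbox : Boxes (⊥ : AddSubgroup G) X w b V S) {N L a : ℕ}
    (hN : 1 ≤ N) (hG : Fintype.card G < 2 ^ L) (haw : a + N * L ≤ w) :
    ∃ (F : Finset G) (r : ℕ) (c₀ : G), (0 : G) ∈ F ∧
      (∀ f ∈ F, Hit ((Ico a (a + N * L)).biUnion V) r (c₀ + f)) ∧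
      (∀ f ∈ F, f ∈ AddSubgroup.closure (Df S : Set G)) ∧
      ∀ v ∈ Df S, N * #(F.filter (fun f => f + v ∉ F)) ≤ #F := by
  by_contra hcon
  push Not at hcon
  have key : ∀ i ≤ N * L, ∃ (F : Finset G) (r : ℕ) (c₀ : G), (0 : G) ∈ F ∧
      (∀ f ∈ F, Hit ((Ico a (a + i)).biUnion V) r (c₀ + f)) ∧
      (∀ f ∈ F, f ∈ AddSubgroup.closure (Df S : Set G)) ∧ (N + 1) ^ i ≤ N ^ i * #F := by
    intro i
    induction i with
    | zero =>
      intro _
      refine ⟨{0}, 0, 0, mem_singleton_self _, ?_, ?_, ?_⟩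
      · intro f hf
        rw [mem_singleton] at hf
        subst hf
        exact ⟨∅, empty_subset _, card_empty, by rw [sum_empty, add_zero]⟩
      · intro f hf
        rw [mem_singleton] at hf
        subst hf
        exact AddSubgroup.zero_mem _
      · rw [pow_zero, pow_zero, card_singleton, one_mul]
    | succ i ih =>
      intro hi
      obtain ⟨F, r, c₀, h0, hfill, hcl, hcard⟩ := ih (by omega)
      obtain ⟨v, hv, hbad⟩ := hcon F r c₀ h0 (fun f hf => by
        obtain ⟨T, hT, hc, hs⟩ := hfill f hf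
        refine ⟨T, hT.trans ?_, hc, hs⟩
        refine biUnion_subset_biUnion_of_subset_left _ ?_
        intro j hj
        rw [mem_Ico] at hj ⊢
        omega) hcl
      obtain ⟨⟨x, y⟩, hxy, rfl⟩ := mem_image.1 hv
      rw [mem_product] at hxy
      dsimp only at hxy hbad
      set v := y - x with hvdef
      obtain ⟨P, M, hP, hM, -, hPM, hs⟩ := hbox.sw (a + i) (by omega) x hxy.1 y hxy.2
      rw [AddSubgroup.mem_bot, sub_eq_zero] at hs
      have hsP : ∑ x ∈ P, x = ∑ x ∈ M, x + v := by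
        rw [hvdef, ← hs]
        abel
      have hdis : Disjoint ((Ico a (a + i)).biUnion V) (V (a + i)) := by
        rw [Finset.disjoint_left]
        intro z hz hz'
        obtain ⟨j, hj, hzj⟩ := mem_biUnion.1 hz
        rw [mem_Ico] at hj
        exact Finset.disjoint_left.1 (hbox.disj j (by omega) (a + i) (by omega) (by omega)) hzj hz'
      have hsub : (Ico a (a + i)).biUnion V ∪ V (a + i) ⊆ (Ico a (a + (i + 1))).biUnion V := by
        intro z hz
        rcases mem_union.1 hz with hz | hz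
        · obtain ⟨j, hj, hzj⟩ := mem_biUnion.1 hz
          rw [mem_Ico] at hj
          exact mem_biUnion.2 ⟨j, mem_Ico.2 ⟨by omega, by omega⟩, hzj⟩
        · exact mem_biUnion.2 ⟨a + i, mem_Ico.2 ⟨by omega, by omega⟩, hz⟩
      have hhit : ∀ f ∈ F, ∀ T ⊆ V (a + i), Hit ((Ico a (a + (i + 1))).biUnion V) (r + #T)
          (c₀ + f + ∑ x ∈ T, x) := by
        intro f hf T hT
        obtain ⟨U, hU, hc, hs⟩ := hit_union hdis (hfill f hf) hT
        exact ⟨U, hU.trans hsub, hc, hs⟩
      refine ⟨F ∪ F.image (fun f => f + v), r + #M, c₀ + ∑ x ∈ M, x, mem_union_left _ h0, ?_, ?_, ?_⟩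
      · intro g hg
        rcases mem_union.1 hg with hg | hg
        · have := hhit g hg M hM
          have e : c₀ + g + ∑ x ∈ M, x = c₀ + ∑ x ∈ M, x + g := by abel
          rwa [e] at this
        · obtain ⟨f, hf, rfl⟩ := mem_image.1 hg
          have := hhit f hf P hP
          rw [hPM, hsP] at this
          have e : c₀ + f + (∑ x ∈ M, x + v) = c₀ + ∑ x ∈ M, x + (f + v) := by abel
          rwa [e] at this
      · intro g hg
        rcases mem_union.1 hg with hg | hg
        · exact hcl g hg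
        · obtain ⟨f, hf, rfl⟩ := mem_image.1 hg
          exact AddSubgroup.add_mem _ (hcl f hf) (AddSubgroup.subset_closure (mem_coe.2 hv))
      · have h1 : #F + #(F.filter (fun f => f + v ∉ F)) ≤ #(F ∪ F.image (fun f => f + v)) := by
          have h2 : #((F.filter (fun f => f + v ∉ F)).image (fun f => f + v)) =
              #(F.filter (fun f => f + v ∉ F)) :=
            card_image_of_injective _ (add_left_injective v)
          have h3 : Disjoint F ((F.filter (fun f => f + v ∉ F)).image (fun f => f + v)) := by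
            rw [Finset.disjoint_left]
            intro z hz hz'
            obtain ⟨f, hf, rfl⟩ := mem_image.1 hz'
            exact (mem_filter.1 hf).2 hz
          rw [← h2, ← card_union_of_disjoint h3]
          exact card_le_card (union_subset_union Subset.rfl (image_subset_image (filter_subset _ _)))
        have h2 : (N + 1) ^ (i + 1) ≤ N ^ i * (N * #F + #F) := by
          calc (N + 1) ^ (i + 1) = (N + 1) ^ i * (N + 1) := pow_succ _ _
            _ ≤ N ^ i * #F * (N + 1) := Nat.mul_le_mul_right _ hcard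
            _ = N ^ i * (N * #F + #F) := by ring
        refine h2.trans ?_
        calc N ^ i * (N * #F + #F) ≤ N ^ i * (N * #F + N * #(F.filter (fun f => f + v ∉ F))) :=
              Nat.mul_le_mul_left _ (by omega)
          _ = N ^ (i + 1) * (#F + #(F.filter (fun f => f + v ∉ F))) := by ring
          _ ≤ N ^ (i + 1) * #(F ∪ F.image (fun f => f + v)) := Nat.mul_le_mul_left _ h1
  obtain ⟨F, r, c₀, -, -, -, hcard⟩ := key (N * L) le_rfl
  have h1 : #F < 2 ^ L := (card_le_univ F).trans_lt hG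
  have h2 : 2 ^ L * N ^ (N * L) ≤ (N + 1) ^ (N * L) := by
    rw [pow_mul, pow_mul, ← mul_pow]
    exact Nat.pow_le_pow_left (two_mul_pow_le hN) L
  have h3 : N ^ (N * L) * #F < N ^ (N * L) * 2 ^ L :=
    Nat.mul_lt_mul_of_pos_left h1 (by positivity)
  rw [mul_comm] at h2
  omega

end Pool.Agent.Lib.MPa7239a.RS
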