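import Pool.Agent.Lib.MP_a7239a_co.RS.STRA

/-!
# The row lemma: cosets of subgroups of index at least `3 m / M` have few elements of `A`
-/

open Finset

namespace Pool.Agent.Lib.MPa7239a.RS

open Pool.Agent.Lib.MPa7239a.GC

namespace ROWLM

variable {G : Type*} [AddCommGroup G] [DecidableEq G]

theorem closure_le {S : Finset G} {K : AddSubgroup G} {x₀ : G} (h : ∀ x ∈ S, x - x₀ ∈ K) :
    AddSubgroup.closure (Df S : Set G) ≤ K := by
  rw [AddSubgroup.closure_le]
  intro y hy
  rw [mem_coe, Df, mem_image] at hy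
  obtain ⟨p, hp, rfl⟩ := hy
  rw [mem_product] at hp
  have h1 := K.sub_mem (h _ hp.2) (h _ hp.1)
  rwa [sub_sub_sub_cancel_right] at h1

theorem sub_mem_closure {S : Finset G} {x y : G} (hx : x ∈ S) (hy : y ∈ S) :
    y - x ∈ AddSubgroup.closure (Df S : Set G) := by
  refine AddSubgroup.subset_closure ?_
  rw [mem_coe, Df, mem_image]
  exact ⟨(x, y), mem_product.2 ⟨hx, hy⟩, rfl⟩

omit [DecidableEq G] in
theorem sum_sub_mem {K : AddSubgroup G} {T : Finset G} {x₀ : G} (h : ∀ x ∈ T, x - x₀ ∈ K) :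
    ∑ x ∈ T, x - #T • x₀ ∈ K := by
  have h1 := K.sum_mem h
  rwa [sum_sub_distrib, sum_const] at h1

/-- `R` fills the subgroup containing all differences: Hit -/
theorem hit_of_full {A S R : Finset G} {K : AddSubgroup G} {x₀ c₀ : G} {n r : ℕ}
    (hn : n • x₀ = 0) (hS : S ⊆ A) (hR : R ⊆ A) (hSR : Disjoint S R)
    (hSK : ∀ x ∈ S, x - x₀ ∈ K) (hRK : ∀ x ∈ R, x - x₀ ∈ K) (hSn : n ≤ #S) (hrn : r ≤ n)
    (hfull : ∀ g ∈ K, Hit R r (c₀ + g)) : Hit A n 0 := by
  obtain ⟨U, hU, hUc⟩ := exists_subset_card_eq (show n - r ≤ #S by omega)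
  obtain ⟨T₀, hT₀, hT₀c, hT₀s⟩ := hfull 0 K.zero_mem
  have h1 : c₀ - r • x₀ ∈ K := by
    have := sum_sub_mem (K := K) (x₀ := x₀) (fun x hx => hRK x (hT₀ hx))
    rwa [hT₀s, hT₀c, add_zero] at this
  have h2 : ∑ x ∈ U, x - (n - r) • x₀ ∈ K := by
    have := sum_sub_mem (K := K) (x₀ := x₀) (fun x hx => hSK x (hU hx))
    rwa [hUc] at this
  have h3 : (n - r) • x₀ + r • x₀ = 0 := by
    rw [← add_nsmul, Nat.sub_add_cancel hrn, hn]
  have h4 : c₀ + ∑ x ∈ U, x ∈ K := by
    have h5 := K.add_mem h1 h2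
    have h6 : c₀ - r • x₀ + (∑ x ∈ U, x - (n - r) • x₀) = c₀ + ∑ x ∈ U, x := by
      calc c₀ - r • x₀ + (∑ x ∈ U, x - (n - r) • x₀) =
          c₀ + ∑ x ∈ U, x - ((n - r) • x₀ + r • x₀) := by abel
        _ = c₀ + ∑ x ∈ U, x := by rw [h3, sub_zero]
    rwa [h6] at h5
  obtain ⟨T, hT, hTc, hTs⟩ := hfull _ (K.neg_mem h4)
  have hdis : Disjoint T U := by
    exact (Disjoint.mono hU hT hSR).symm
  refine ⟨T ∪ U, union_subset (hT.trans hR) (hU.trans hS), ?_, ?_⟩
  · rw [card_union_of_disjoint hdis, hTc, hUc]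
    omega
  · rw [sum_union hdis, hTs]
    abel

/-- the descent to the smallest subgroup -/
theorem core [Fintype G] {A : Finset G} {n lam M l : ℕ} (hM : 1 ≤ M) (hln : lam ≤ n)
    (hexp : ∀ x : G, n • x = 0) (hG : Fintype.card G < 2 ^ (2 * l))
    (hstr : ∀ X ⊆ A, n ≤ #X → ∃ S ⊆ X, ∃ R ⊆ X, Disjoint S R ∧ #X ≤ #S + lam ∧ #R ≤ lam ∧
      ((∃ (r : ℕ) (c₀ : G), ∀ g ∈ AddSubgroup.closure (Df S : Set G), Hit R r (c₀ + g)) ∨
        M * #S ≤ 2 * Nat.card (AddSubgroup.closure (Df S : Set G))))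
    (hno : ¬ Hit A n 0) (K : AddSubgroup G) (hK : 3 * Nat.card K ≤ M * n) (x₀ : G)
    {B : Finset G} (hBA : B ⊆ A) (hB : ∀ x ∈ B, x - x₀ ∈ K) :
    #B < n + (2 * l + 1) * lam := by
  classical
  by_contra hlt
  push Not at hlt
  have hn0 : 0 < n := by
    rcases Nat.eq_zero_or_pos n with h | h
    · exfalso
      have hp : 0 < Nat.card K := Nat.card_pos
      rw [h, mul_zero] at hK
      omega
    · exact h
  -- the property
  have key : ∀ N : ℕ, ∀ (K' : AddSubgroup G) (x₁ : G) (B' : Finset G), Nat.card K' = N →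
      3 * Nat.card K' ≤ M * n → B' ⊆ A → (∀ x ∈ B', x - x₁ ∈ K') →
      #B' < n + (1 + Nat.log 2 (Nat.card K')) * lam := by
    intro N
    induction N using Nat.strong_induction_on with
    | _ N ih =>
      intro K' x₁ B' hN hK' hB'A hB'
      by_contra hge
      push Not at hge
      obtain ⟨S, hSB, R, hRB, hSR, hXS, hRl, hcase⟩ := hstr B' hB'A (by omega)
      have h1 : (1 + Nat.log 2 (Nat.card K')) * lam = lam + Nat.log 2 (Nat.card K') * lam := by
        ring
      have hSn : n + Nat.log 2 (Nat.card K') * lam ≤ #S := by omega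
      have hSne : S.Nonempty := by
        rw [← card_pos]
        omega
      have hCK : AddSubgroup.closure (Df S : Set G) ≤ K' := closure_le (fun x hx => hB' x (hSB hx))
      rcases hcase with ⟨r, c₀, hfull⟩ | hsmall
      · obtain ⟨x₂, hx₂⟩ := hSne
        rcases Nat.lt_or_ge (Nat.card (AddSubgroup.closure (Df S : Set G))) (Nat.card K') with
          hC | hC
        · -- a smaller subgroup
          have h2 : 2 * Nat.card (AddSubgroup.closure (Df S : Set G)) ≤ Nat.card K' := by
            obtain ⟨d, hd⟩ := AddSubgroup.card_dvd_of_le hCK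
            have hd2 : 2 ≤ d := by
              rcases Nat.lt_or_ge d 2 with h | h
              · exfalso
                have hd1 : d ≤ 1 := by omega
                have h3 := Nat.mul_le_mul_left
                  (Nat.card (AddSubgroup.closure (Df S : Set G))) hd1
                rw [← hd, mul_one] at h3
                omega
              · exact h
            have h3 := Nat.mul_le_mul_left (Nat.card (AddSubgroup.closure (Df S : Set G))) hd2
            rw [← hd] at h3
            omega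
          have hpos : 0 < Nat.card (AddSubgroup.closure (Df S : Set G)) := Nat.card_pos
          have h3 : 1 + Nat.log 2 (Nat.card (AddSubgroup.closure (Df S : Set G))) ≤
              Nat.log 2 (Nat.card K') := by
            have h4 : 2 ^ (Nat.log 2 (Nat.card (AddSubgroup.closure (Df S : Set G))) + 1) ≤
                Nat.card K' := by
              have h5 := Nat.pow_log_le_self 2 hpos.ne'
              rw [pow_succ]
              omega
            have h6 := Nat.le_log_of_pow_le (by norm_num) h4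
            omega
          have h7 := ih _ (by rw [← hN]; exact hC) (AddSubgroup.closure (Df S : Set G)) x₂ S rfl
            (by omega) (hSB.trans hB'A) (fun x hx => sub_mem_closure hx₂ hx)
          have h8 := Nat.mul_le_mul_right lam h3
          omega
        · -- full
          have hEq : AddSubgroup.closure (Df S : Set G) = K' :=
            AddSubgroup.eq_of_le_of_card_ge hCK hC
          rw [hEq] at hfull
          have hrR : r ≤ #R := by
            obtain ⟨T, hT, hTc, -⟩ := hfull 0 K'.zero_mem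
            rw [← hTc]
            exact card_le_card hT
          exact hno (hit_of_full (hexp x₁) (hSB.trans hB'A) (hRB.trans hB'A) hSR
            (fun x hx => hB' x (hSB hx)) (fun x hx => hB' x (hRB hx)) (by omega) (by omega) hfull)
      · have h2 : Nat.card (AddSubgroup.closure (Df S : Set G)) ≤ Nat.card K' :=
          Nat.le_of_dvd Nat.card_pos (AddSubgroup.card_dvd_of_le hCK)
        have h3 : M * n ≤ M * #S := Nat.mul_le_mul_left M (by omega)
        have h4 : 0 < M * n := Nat.mul_pos hM hn0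
        omega
  have h1 := key _ K x₀ B rfl hK hBA hB
  have h2 : Nat.log 2 (Nat.card K) < 2 * l := by
    have h3 : Nat.card K ≤ Fintype.card G := by
      rw [← Nat.card_eq_fintype_card]
      exact Nat.card_le_card_of_injective _ K.subtype_injective
    exact Nat.log_lt_of_lt_pow (Nat.card_pos (α := K)).ne' (lt_of_le_of_lt h3 hG)
  have h3 : (1 + Nat.log 2 (Nat.card K)) * lam ≤ (2 * l + 1) * lam :=
    Nat.mul_le_mul_right _ (by omega)
  omega

end ROWLM

open ROWLM in
/-- **The row lemma.** -/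
theorem row_lemma {m n ℓ M Λ k : ℕ} [NeZero n] (hpar : Par m n ℓ M Λ k)
    {Γ : AddSubgroup (ZMod n × ZMod n)} (hΓ : Nat.card Γ = m * n)
    {A : Finset (ZMod n × ZMod n)} (hA : ∀ x ∈ A, x ∈ Γ) (hno : ¬ Hit A n 0)
    (K : AddSubgroup (ZMod n × ZMod n)) (hK : 3 * Nat.card K ≤ M * n) (x₀ : ZMod n × ZMod n)
    {B : Finset (ZMod n × ZMod n)} (hBA : B ⊆ A) (hB : ∀ x ∈ B, x - x₀ ∈ K) :
    #B < n + (2 * ℓ + 1) * (288 * M * ℓ ^ 2) := by
  have hn0 : 0 < n := Nat.pos_of_ne_zero (NeZero.ne n)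
  have hℓ1 : 1 ≤ ℓ := by
    rcases Nat.eq_zero_or_pos ℓ with h | h
    · exfalso
      have h1 := hpar.hℓ
      rw [h, pow_zero] at h1
      omega
    · exact h
  refine core hpar.hM ?_ ?_ ?_ ?_ hno K hK x₀ hBA hB
  · -- the loss is at most `n`
    have h1 := hpar.hM₂
    have h2 := hpar.hmn
    have h3 : ℓ ^ 2 ≤ ℓ ^ 3 := Nat.pow_le_pow_right hℓ1 (by norm_num)
    calc 288 * M * ℓ ^ 2 ≤ 288 * M * ℓ ^ 3 := Nat.mul_le_mul_left _ h3
      _ ≤ 2592 * 400000 * M * ℓ ^ 3 := by
          refine Nat.mul_le_mul_right _ (Nat.mul_le_mul_right _ (by norm_num))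
      _ ≤ n := h1.trans h2
  · intro x
    ext <;> simp
  · rw [Fintype.card_prod, ZMod.card, mul_comm 2 ℓ, pow_mul, sq]
    exact Nat.mul_lt_mul'' hpar.hℓ hpar.hℓ
  · intro X hX hXn
    obtain ⟨S, hS, R, hR, hSR, h1, h2, h3⟩ :=
      struct_or_full hpar hΓ (fun x hx => hA x (hX hx)) hXn
    refine ⟨S, hS, R, hR, hSR, h1, h2, ?_⟩
    rcases h3 with h3 | h3
    · exact Or.inl h3
    · exact Or.inr h3.1

end Pool.Agent.Lib.MPa7239a.RS
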