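import Pool.Agent.Lib.MP_a7239a_co.RS.Defs

/-!
# Large characters of a set with popular differences are nearly trivial on the differences
-/

open Finset

namespace Pool.Agent.Lib.MPa7239a.RS

open Pool.Agent.Lib.MPa7239a.GC

namespace SPCM

variable {n : ℕ} [NeZero n]

theorem norm_eq (a : ℤ) :
    ‖(ZMod.stdAddChar (a : ZMod n) : ℂ) - 1‖ = 2 * |Real.sin (Real.pi * a / n)| := by
  rw [ZMod.stdAddChar_coe]
  have h1 : (2 * Real.pi * Complex.I * a / n : ℂ) =
      Complex.I * ((2 * Real.pi * a / n : ℝ) : ℂ) := by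
    push_cast
    ring
  rw [h1, Complex.norm_exp_I_mul_ofReal_sub_one, norm_mul, Real.norm_eq_abs, Real.norm_eq_abs,
    abs_of_pos (by norm_num : (0 : ℝ) < 2)]
  congr 3
  ring

/-- `4 |a| ≤ n ‖χ(a) - 1‖` for `2 |a| ≤ n` -/
theorem le_norm {a : ℤ} (ha : 2 * |a| ≤ n) :
    4 * |(a : ℝ)| ≤ ‖(ZMod.stdAddChar (a : ZMod n) : ℂ) - 1‖ * n := by
  have hn : (0 : ℝ) < n := by
    have := Nat.pos_of_ne_zero (NeZero.ne n)
    exact_mod_cast this
  have hpi := Real.pi_pos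
  rw [norm_eq]
  have h1 : |Real.sin (Real.pi * a / n)| = Real.sin (Real.pi * |(a : ℝ)| / n) := by
    rcases le_or_gt 0 (a : ℝ) with h | h
    · rw [abs_of_nonneg h]
      refine abs_of_nonneg (Real.sin_nonneg_of_nonneg_of_le_pi (by positivity) ?_)
      rw [div_le_iff₀ hn]
      refine mul_le_mul_of_nonneg_left ?_ hpi.le
      have h2 : ((2 * |a| : ℤ) : ℝ) ≤ ((n : ℤ) : ℝ) := Int.cast_le.2 ha
      push_cast at h2
      rw [abs_of_nonneg h] at h2
      linarith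
    · rw [abs_of_neg h]
      have h3 : Real.pi * (a : ℝ) / n = -(Real.pi * -(a : ℝ) / n) := by ring
      rw [h3, Real.sin_neg, abs_neg]
      refine abs_of_nonneg (Real.sin_nonneg_of_nonneg_of_le_pi ?_ ?_)
      · have : 0 ≤ -(a : ℝ) := by linarith
        positivity
      · rw [div_le_iff₀ hn]
        refine mul_le_mul_of_nonneg_left ?_ hpi.le
        have h2 : ((2 * |a| : ℤ) : ℝ) ≤ ((n : ℤ) : ℝ) := Int.cast_le.2 ha
        push_cast at h2
        rw [abs_of_neg h] at h2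
        linarith
  rw [h1]
  have h2 : ((2 * |a| : ℤ) : ℝ) ≤ ((n : ℤ) : ℝ) := Int.cast_le.2 ha
  push_cast at h2
  have h3 : Real.pi * |(a : ℝ)| / n ≤ Real.pi / 2 := by
    rw [div_le_div_iff₀ hn (by norm_num)]
    have := mul_le_mul_of_nonneg_left h2 hpi.le
    linarith
  have h4 := Real.mul_le_sin (x := Real.pi * |(a : ℝ)| / n) (by positivity) h3
  have h5 : 2 / Real.pi * (Real.pi * |(a : ℝ)| / n) = 2 * |(a : ℝ)| / n := by
    field_simp
  rw [h5] at h4
  have h6 := mul_le_mul_of_nonneg_right h4 hn.le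
  rw [div_mul_cancel₀ _ hn.ne'] at h6
  linarith

/-- the character `ξ` -/
theorem cs_eq (F : Finset (ZMod n × ZMod n)) (ξ : ZMod n × ZMod n) :
    cs F ξ = ∑ x ∈ F, (ZMod.stdAddChar (ph ξ x) : ℂ) := rfl

omit [NeZero n] in
theorem ph_add (ξ x y : ZMod n × ZMod n) : ph ξ (x + y) = ph ξ x + ph ξ y := by
  unfold ph
  rw [Prod.fst_add, Prod.snd_add]
  ring

/-- `(χ(v) - 1) F^(χ)` is a sum over the symmetric difference of `F` and `F + v` -/
theorem mul_cs (F : Finset (ZMod n × ZMod n)) (ξ v : ZMod n × ZMod n) :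
    ((ZMod.stdAddChar (ph ξ v) : ℂ) - 1) * cs F ξ =
      ∑ x ∈ F.filter (fun f => f + v ∉ F), (ZMod.stdAddChar (ph ξ (x + v)) : ℂ) -
        ∑ x ∈ F.filter (fun f => f - v ∉ F), (ZMod.stdAddChar (ph ξ x) : ℂ) := by
  classical
  have h1 : (ZMod.stdAddChar (ph ξ v) : ℂ) * cs F ξ =
      ∑ x ∈ F, (ZMod.stdAddChar (ph ξ (x + v)) : ℂ) := by
    rw [cs_eq, mul_sum]
    refine sum_congr rfl (fun x _ => ?_)
    rw [ph_add, AddChar.map_add_eq_mul, mul_comm]
  have h2 : ∑ x ∈ F.filter (fun f => f + v ∈ F), (ZMod.stdAddChar (ph ξ (x + v)) : ℂ) =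
      ∑ x ∈ F.filter (fun f => f - v ∈ F), (ZMod.stdAddChar (ph ξ x) : ℂ) := by
    refine sum_bij (fun x _ => x + v) ?_ ?_ ?_ ?_
    · intro x hx
      rw [mem_filter] at hx ⊢
      exact ⟨hx.2, by rw [add_sub_cancel_right]; exact hx.1⟩
    · intro x _ y _ hxy
      exact add_right_cancel hxy
    · intro y hy
      rw [mem_filter] at hy
      exact ⟨y - v, by rw [mem_filter, sub_add_cancel]; exact ⟨hy.2, hy.1⟩, sub_add_cancel y v⟩
    · intro x _
      rfl
  rw [sub_mul, one_mul, h1, ← sum_filter_add_sum_filter_not F (fun f => f + v ∈ F), h2, cs_eq,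
    ← sum_filter_add_sum_filter_not F (fun f => f - v ∈ F) (fun x => (ZMod.stdAddChar (ph ξ x) : ℂ))]
  ring

omit [NeZero n] in
theorem card_eq (F : Finset (ZMod n × ZMod n)) (v : ZMod n × ZMod n) :
    #(F.filter (fun f => f - v ∉ F)) = #(F.filter (fun f => f + v ∉ F)) := by
  classical
  have h1 : #(F.filter (fun f => f + v ∈ F)) = #(F.filter (fun f => f - v ∈ F)) := by
    refine card_bij (fun x _ => x + v) ?_ ?_ ?_
    · intro x hx
      rw [mem_filter] at hx ⊢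
      exact ⟨hx.2, by rw [add_sub_cancel_right]; exact hx.1⟩
    · intro x _ y _ hxy
      exact add_right_cancel hxy
    · intro y hy
      rw [mem_filter] at hy
      exact ⟨y - v, by rw [mem_filter, sub_add_cancel]; exact ⟨hy.2, hy.1⟩, sub_add_cancel y v⟩
  have h2 := card_filter_add_card_filter_not (s := F) (fun f => f + v ∈ F)
  have h3 := card_filter_add_card_filter_not (s := F) (fun f => f - v ∈ F)
  omega

theorem norm_mul_cs (F : Finset (ZMod n × ZMod n)) (ξ v : ZMod n × ZMod n) :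
    ‖(ZMod.stdAddChar (ph ξ v) : ℂ) - 1‖ * ‖cs F ξ‖ ≤
      2 * #(F.filter (fun f => f + v ∉ F)) := by
  rw [← norm_mul, mul_cs]
  refine (norm_sub_le _ _).trans ?_
  have h1 : ∀ (s : Finset (ZMod n × ZMod n)) (g : ZMod n × ZMod n → ZMod n),
      ‖∑ x ∈ s, (ZMod.stdAddChar (g x) : ℂ)‖ ≤ #s := by
    intro s g
    refine (norm_sum_le _ _).trans ?_
    rw [sum_congr rfl (fun x _ => AddChar.norm_apply (ZMod.stdAddChar (N := n)) (g x)), sum_const,
      nsmul_eq_mul, mul_one]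
  have h2 := h1 (F.filter (fun f => f + v ∉ F)) (fun x => ph ξ (x + v))
  have h3 := h1 (F.filter (fun f => f - v ∉ F)) (fun x => ph ξ x)
  rw [card_eq] at h3
  linarith

end SPCM

open SPCM in
/-- a large character of a set with popular difference `v` is nearly trivial at `v` -/
theorem spec_small {n N Λ : ℕ} [NeZero n] {F : Finset (ZMod n × ZMod n)} (hF : F.Nonempty)
    (hΛ : 1 ≤ Λ) {v ξ : ZMod n × ZMod n} (hp : N * #(F.filter (fun f => f + v ∉ F)) ≤ #F)
    (hξ : (#F : ℝ) ≤ 4 * Λ * ‖cs F ξ‖) : N * (ph ξ v).valMinAbs.natAbs ≤ 2 * Λ * n := by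
  have hn : (0 : ℝ) < n := by
    have := Nat.pos_of_ne_zero (NeZero.ne n)
    exact_mod_cast this
  have hFp : (0 : ℝ) < #F := by exact_mod_cast hF.card_pos
  set a : ℤ := (ph ξ v).valMinAbs with ha
  have ha2 : 2 * |a| ≤ n := by
    have h := ZMod.natAbs_valMinAbs_le (ph ξ v)
    rw [← ha] at h
    have h2 : (a.natAbs : ℤ) = |a| := Int.natCast_natAbs a
    omega
  have h1 := le_norm ha2
  rw [ha, ZMod.coe_valMinAbs, ← ha] at h1
  have h2 := norm_mul_cs F ξ v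
  have h3 : (N : ℝ) * #(F.filter (fun f => f + v ∉ F)) ≤ #F := by exact_mod_cast hp
  set nu : ℝ := ‖(ZMod.stdAddChar (ph ξ v) : ℂ) - 1‖ with hnu
  have hnu0 : 0 ≤ nu := norm_nonneg _
  have hN0 : (0 : ℝ) ≤ N := Nat.cast_nonneg N
  have h4 : (N : ℝ) * nu * #F ≤ 8 * Λ * #F := by
    calc (N : ℝ) * nu * #F ≤ N * nu * (4 * Λ * ‖cs F ξ‖) :=
          mul_le_mul_of_nonneg_left hξ (mul_nonneg hN0 hnu0)
      _ = 4 * Λ * N * (nu * ‖cs F ξ‖) := by ring
      _ ≤ 4 * Λ * N * (2 * #(F.filter (fun f => f + v ∉ F))) :=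
          mul_le_mul_of_nonneg_left h2 (by positivity)
      _ = 8 * Λ * (N * #(F.filter (fun f => f + v ∉ F))) := by ring
      _ ≤ 8 * Λ * #F := mul_le_mul_of_nonneg_left h3 (by positivity)
  have h5 : (N : ℝ) * nu ≤ 8 * Λ := le_of_mul_le_mul_right h4 hFp
  have h6 : (N : ℝ) * |(a : ℝ)| ≤ 2 * Λ * n := by
    have h7 := mul_le_mul_of_nonneg_left h1 hN0
    have h8 := mul_le_mul_of_nonneg_right h5 hn.le
    nlinarith
  have h9 : ((a.natAbs : ℕ) : ℝ) = |(a : ℝ)| := by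
    rw [Nat.cast_natAbs, Int.cast_abs]
  have h10 : ((N * a.natAbs : ℕ) : ℝ) ≤ ((2 * Λ * n : ℕ) : ℝ) := by
    push_cast [h9]
    exact h6
  exact_mod_cast h10

theorem norm_char_sub_one_le {n : ℕ} [NeZero n] (a : ℤ) :
    ‖(ZMod.stdAddChar (a : ZMod n) : ℂ) - 1‖ * n ≤ 7 * |(a : ℝ)| := by
  have hn : (0 : ℝ) < n := by
    have := Nat.pos_of_ne_zero (NeZero.ne n)
    exact_mod_cast this
  rw [SPCM.norm_eq]
  have h1 := Real.abs_sin_le_abs (x := Real.pi * a / n)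
  rw [abs_div, abs_mul, abs_of_pos Real.pi_pos, abs_of_pos hn] at h1
  have h2 := mul_le_mul_of_nonneg_right h1 hn.le
  rw [div_mul_cancel₀ _ hn.ne'] at h2
  have h3 := Real.pi_lt_d2
  have h4 := abs_nonneg (a : ℝ)
  nlinarith

end Pool.Agent.Lib.MPa7239a.RS
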